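import Pool.Agent.V1186.PJ.C
import Pool.Agent.Y321.PJ.Main

/-!
# Hölder functions and Bowen's condition on manifolds
-/

set_option autoImplicit false
set_option linter.unusedSectionVars false

open scoped Manifold ContDiff Topology ENNReal
open Set Filter MeasureTheory

namespace Pool.Agent.V1186.PJ

open Pool.Agent.H789R2.AN Pool.Agent.H721R2 Pool.Agent.Y321.PJ Pool.Agent.Y330.G

/-- Bowen's condition: there are a neighbourhood `𝒰` of the diagonal and a bound `K` such that the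
sums `∑_{i<n} ψ(fⁱ x)` and `∑_{i<n} ψ(fⁱ y)` differ by at most `K` whenever
`(fⁱ x, fⁱ y) ∈ 𝒰` for `i = 0, …, n`. -/
def Bowen {M : Type*} [TopologicalSpace M] (f : M → M) (ψ : M → ℝ) : Prop :=
  ∃ 𝒰 ∈ 𝓝ˢ (diagonal M), ∃ K : ℝ, ∀ (n : ℕ) (x y : M), (∀ i ≤ n, (f^[i] x, f^[i] y) ∈ 𝒰) →
    |∑ i ∈ Finset.range n, ψ (f^[i] x) - ∑ i ∈ Finset.range n, ψ (f^[i] y)| ≤ K

/-- `ψ` is locally Hölder continuous in the charts. -/
def LocHolder (E : Type*) [NormedAddCommGroup E] [NormedSpace ℝ E]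
    {M : Type*} [TopologicalSpace M] [ChartedSpace E M] (ψ : M → ℝ) : Prop :=
  ∀ x₀ : M, ∃ α : ℝ, 0 < α ∧ ∃ C : ℝ, ∃ W ∈ 𝓝 x₀, ∀ x ∈ W, ∀ y ∈ W,
    |ψ x - ψ y| ≤ C * ‖extChartAt 𝓘(ℝ, E) x₀ x - extChartAt 𝓘(ℝ, E) x₀ y‖ ^ α

theorem LocHolder.continuous {E : Type*} [NormedAddCommGroup E] [NormedSpace ℝ E]
    {M : Type*} [TopologicalSpace M] [ChartedSpace E M] {ψ : M → ℝ} (h : LocHolder E ψ) :
    Continuous ψ := by
  rw [continuous_iff_continuousAt]
  intro x₀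
  obtain ⟨α, hα, C, W, hW, h1⟩ := h x₀
  have h2 : ContinuousAt (fun x => C * ‖extChartAt 𝓘(ℝ, E) x₀ x -
      extChartAt 𝓘(ℝ, E) x₀ x₀‖ ^ α) x₀ := by
    apply ContinuousAt.mul continuousAt_const
    apply ContinuousAt.rpow_const
    · exact ((continuousAt_extChartAt x₀).sub continuousAt_const).norm
    · exact Or.inr hα.le
  have h3 : Tendsto (fun x => C * ‖extChartAt 𝓘(ℝ, E) x₀ x -
      extChartAt 𝓘(ℝ, E) x₀ x₀‖ ^ α) (𝓝 x₀) (𝓝 0) := by
    have := h2.tendsto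
    simpa [Real.zero_rpow hα.ne'] using this
  rw [ContinuousAt, tendsto_iff_dist_tendsto_zero]
  refine squeeze_zero' (Eventually.of_forall fun _ => dist_nonneg) ?_ h3
  filter_upwards [hW] with x hx
  rw [Real.dist_eq]
  exact h1 x hx x₀ (mem_of_mem_nhds hW)

section abs

variable {X : Type*} [MetricSpace X] [CompactSpace X]

/-- Bowen's condition passes to powers. -/
theorem good_of_bowen {f : X ≃ₜ X} {ψ : X → ℝ} (hψ : Continuous ψ) {N : ℕ} (hN : 1 ≤ N) {c : ℝ}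
    (hc : 0 ≤ c) (h : Bowen f ψ) : Good f ψ N c := by
  obtain ⟨𝒰, h𝒰, K, hK⟩ := h
  rw [nhdsSet_diagonal_eq_uniformity, Metric.mem_uniformity_dist] at h𝒰
  obtain ⟨ε, hε, hsub⟩ := h𝒰
  obtain ⟨η, hη, h1⟩ := uc f f.continuous N hε
  obtain ⟨B, hB⟩ := bdd_cont (cont_birk (f := f) hψ N)
  refine wb_of hc hB (half_pos hη) (K := K) fun n x y hxy => ?_
  rw [birk_ith, birk_ith]
  apply hK
  intro j hj
  apply hsub
  have e : j = j % N + N * (j / N) := (Nat.mod_add_div j N).symm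
  have hq : j / N ≤ n := by
    calc j / N ≤ (N * n) / N := Nat.div_le_div_right hj
      _ = n := Nat.mul_div_cancel_left n (by omega)
  have h2 := (hxy (j / N) hq).trans (min_le_left _ _)
  rw [ith_iter, ith_iter] at h2
  have h3 := h1 (j % N) (Nat.mod_lt _ (by omega)).le _ _ (h2.trans_lt (half_lt_self hη))
  rw [← Function.iterate_add_apply, ← Function.iterate_add_apply, ← e] at h3
  exact h3

/-- Hölder continuous functions. -/
theorem good_of_holder {f : X ≃ₜ X} {ψ : X → ℝ} (hψ : Continuous ψ) {N : ℕ} {c : ℝ}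
    (hc : 0 ≤ c) {Lf : NNReal} (hf : LipschitzWith Lf f) {ε α L : ℝ} (hε : 0 < ε) (hα : 0 < α)
    (hL : 0 ≤ L) (h : ∀ x y, dist x y ≤ ε → |ψ x - ψ y| ≤ L * dist x y ^ α) : Good f ψ N c := by
  obtain ⟨B, hB⟩ := bdd_cont (cont_birk (f := f) hψ N)
  set A : ℝ := (max Lf 1 : NNReal) ^ N with hA
  have hA1 : 1 ≤ A := one_le_pow₀ (by exact_mod_cast le_max_right Lf 1)
  have hA0 : 0 < A := by linarith
  have hit : ∀ j ≤ N, ∀ x y, dist (f^[j] x) (f^[j] y) ≤ A * dist x y := by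
    intro j hj x y
    have h1 := (hf.iterate j).dist_le_mul x y
    refine h1.trans (mul_le_mul_of_nonneg_right ?_ dist_nonneg)
    push_cast
    calc (Lf : ℝ) ^ j ≤ ((max Lf 1 : NNReal) : ℝ) ^ j :=
          pow_le_pow_left₀ Lf.coe_nonneg (by exact_mod_cast le_max_left Lf 1) j
      _ ≤ ((max Lf 1 : NNReal) : ℝ) ^ N :=
          pow_le_pow_right₀ (by exact_mod_cast le_max_right Lf 1) hj
  refine wb_of_holder hc hB (ε := ε / A) (α := α) (L := N * (L * A ^ α)) (by positivity) hα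
    (by positivity) fun x y hxy => ?_
  unfold birk
  rw [← Finset.sum_sub_distrib]
  calc |∑ i ∈ Finset.range N, (ψ (f^[i] x) - ψ (f^[i] y))|
      ≤ ∑ i ∈ Finset.range N, |ψ (f^[i] x) - ψ (f^[i] y)| := Finset.abs_sum_le_sum_abs _ _
    _ ≤ ∑ _i ∈ Finset.range N, L * A ^ α * dist x y ^ α := by
        apply Finset.sum_le_sum
        intro i hi
        have h1 := hit i (Finset.mem_range.mp hi).le x y
        have h2 : dist (f^[i] x) (f^[i] y) ≤ ε := by
          rw [le_div_iff₀ hA0] at hxy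
          linarith
        refine (h _ _ h2).trans ?_
        rw [mul_assoc, ← Real.mul_rpow hA0.le dist_nonneg]
        exact mul_le_mul_of_nonneg_left (Real.rpow_le_rpow dist_nonneg h1 hα.le) hL
    _ = _ := by rw [Finset.sum_const, Finset.card_range, nsmul_eq_mul]; ring

end abs

section man

variable {E : Type*} [NormedAddCommGroup E] [NormedSpace ℝ E] [FiniteDimensional ℝ E]
  {M : Type*} [MetricSpace M] [ChartedSpace E M] [IsManifold 𝓘(ℝ, E) ∞ M]
  {F : Type*} [NormedAddCommGroup F] [InnerProductSpace ℝ F]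

/-- `C¹` maps are Lipschitz for the metric of an embedding. -/
theorem c1_lip [CompactSpace M] (e : M → F) (hiso : ∀ x y, dist x y = ‖e x - e y‖)
    (he : ContMDiff 𝓘(ℝ, E) 𝓘(ℝ, F) 1 e) (hinj : ∀ x, Function.Injective (dm E e x))
    {F' : Type*} [NormedAddCommGroup F'] [NormedSpace ℝ F'] (h : M → F')
    (hh : ContMDiff 𝓘(ℝ, E) 𝓘(ℝ, F') 1 h) : ∃ L : NNReal, LipschitzWith L h := by
  have hloc : LocallyLipschitz h := by
    intro x₀
    set κ := extChartAt 𝓘(ℝ, E) x₀ with hκ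
    have h1 : ContDiffAt ℝ 1 (hatMap h x₀) (κ x₀) :=
      hatMap_contDiffAt h hh x₀ _ (mem_extChartAt_target x₀)
    obtain ⟨K, t, ht, hK⟩ := h1.exists_lipschitzOnWith
    obtain ⟨C, hC, W, hW, hWs, hWC⟩ := chart_lip e hiso he hinj x₀
    refine ⟨K * C.toNNReal, W ∩ κ ⁻¹' t, ?_, ?_⟩
    · exact inter_mem hW ((continuousAt_extChartAt x₀).preimage_mem_nhds ht)
    · apply LipschitzOnWith.of_dist_le_mul
      intro x hx y hy
      have hx1 : hatMap h x₀ (κ x) = h x := by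
        show h (κ.symm (κ x)) = h x
        rw [κ.left_inv (hWs hx.1)]
      have hy1 : hatMap h x₀ (κ y) = h y := by
        show h (κ.symm (κ y)) = h y
        rw [κ.left_inv (hWs hy.1)]
      have h2 := hK.dist_le_mul _ hx.2 _ hy.2
      rw [hx1, hy1] at h2
      refine h2.trans ?_
      have h3 := hWC x hx.1 y hy.1
      rw [dist_eq_norm]
      push_cast
      rw [Real.coe_toNNReal C hC, mul_assoc]
      exact mul_le_mul_of_nonneg_left h3 K.coe_nonneg
  have hloc' : LocallyLipschitzOn univ h := hloc.locallyLipschitzOn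
  obtain ⟨L, hL⟩ := hloc'.exists_lipschitzOnWith_of_compact isCompact_univ
  exact ⟨L, lipschitzOnWith_univ.mp hL⟩

/-- Locally Hölder functions are uniformly locally Hölder for the metric of an embedding. -/
theorem holder_unif [CompactSpace M] [Nonempty M] (e : M → F)
    (hiso : ∀ x y, dist x y = ‖e x - e y‖)
    (he : ContMDiff 𝓘(ℝ, E) 𝓘(ℝ, F) 1 e) (hinj : ∀ x, Function.Injective (dm E e x))
    {ψ : M → ℝ} (hψ : LocHolder E ψ) :
    ∃ ε > 0, ∃ α : ℝ, 0 < α ∧ ∃ L ≥ 0, ∀ x y, dist x y ≤ ε →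
      |ψ x - ψ y| ≤ L * dist x y ^ α := by
  have hloc : ∀ x₀ : M, ∃ α : ℝ, 0 < α ∧ ∃ L ≥ 0, ∃ W : Set M, IsOpen W ∧ x₀ ∈ W ∧
      ∀ x ∈ W, ∀ y ∈ W, |ψ x - ψ y| ≤ L * dist x y ^ α := by
    intro x₀
    obtain ⟨α, hα, C, W, hW, h1⟩ := hψ x₀
    obtain ⟨C', hC', W', hW', -, h2⟩ := chart_lip e hiso he hinj x₀
    obtain ⟨U, hU, hUo, hxU⟩ := mem_nhds_iff.mp (inter_mem hW hW')
    refine ⟨α, hα, |C| * C' ^ α, by positivity, U, hUo, hxU, fun x hx y hy => ?_⟩
    have h3 := h1 x (hU hx).1 y (hU hy).1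
    have h4 := h2 x (hU hx).2 y (hU hy).2
    refine h3.trans ?_
    calc C * ‖extChartAt 𝓘(ℝ, E) x₀ x - extChartAt 𝓘(ℝ, E) x₀ y‖ ^ α
        ≤ |C| * ‖extChartAt 𝓘(ℝ, E) x₀ x - extChartAt 𝓘(ℝ, E) x₀ y‖ ^ α :=
          mul_le_mul_of_nonneg_right (le_abs_self C) (by positivity)
      _ ≤ |C| * (C' * dist x y) ^ α :=
          mul_le_mul_of_nonneg_left (Real.rpow_le_rpow (norm_nonneg _) h4 hα.le) (abs_nonneg _)
      _ = _ := by rw [Real.mul_rpow hC' dist_nonneg, mul_assoc]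
  choose α hα L hL W hWo hxW hW using hloc
  obtain ⟨t, -, ht⟩ := (isCompact_univ (X := M)).elim_nhds_subcover W
    (fun x _ => (hWo x).mem_nhds (hxW x))
  have htn : t.Nonempty := by
    obtain ⟨z⟩ := ‹Nonempty M›
    have := ht (mem_univ z)
    simp only [mem_iUnion, exists_prop] at this
    obtain ⟨x, hx, -⟩ := this
    exact ⟨x, hx⟩
  obtain ⟨δ, hδ, hleb⟩ := lebesgue_number_lemma_of_metric (s := (univ : Set M))
    (c := fun i : t => W i) isCompact_univ (fun i => hWo i) (fun z _ => by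
      have := ht (mem_univ z)
      simp only [mem_iUnion, exists_prop] at this
      obtain ⟨x, hx, hz⟩ := this
      exact mem_iUnion.mpr ⟨⟨x, hx⟩, hz⟩)
  refine ⟨min (δ / 2) 1, lt_min (half_pos hδ) one_pos, t.inf' htn α,
    (Finset.lt_inf'_iff htn).mpr fun i _ => hα i, ∑ i ∈ t, L i,
    Finset.sum_nonneg fun i _ => hL i, fun x y hxy => ?_⟩
  obtain ⟨i, hi⟩ := hleb x trivial
  have h1 : dist x y ≤ δ / 2 := hxy.trans (min_le_left _ _)
  have h2 : dist x y ≤ 1 := hxy.trans (min_le_right _ _)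
  have hx : x ∈ W i := hi (Metric.mem_ball_self hδ)
  have hy : y ∈ W i := hi (by rw [Metric.mem_ball, dist_comm]; linarith)
  refine (hW i x hx y hy).trans ?_
  have h3 : dist x y ^ α i ≤ dist x y ^ t.inf' htn α :=
    Real.rpow_le_rpow_of_exponent_ge_of_imp dist_nonneg h2 (Finset.inf'_le α i.2)
      (fun _ h0 => absurd h0 (hα i).ne')
  have h4 : L i ≤ ∑ i ∈ t, L i := Finset.single_le_sum (fun j _ => hL j) i.2
  calc L i * dist x y ^ α i ≤ L i * dist x y ^ t.inf' htn α :=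
        mul_le_mul_of_nonneg_left h3 (hL i)
    _ ≤ _ := mul_le_mul_of_nonneg_right h4 (by positivity)

end man

end Pool.Agent.V1186.PJ
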