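import Pool.Agent.V1186.PJ.W

/-!
# Measures comparable with Lebesgue measure in the charts
-/

set_option autoImplicit false
set_option linter.unusedSectionVars false

open scoped Manifold ContDiff Topology ENNReal
open Set Filter MeasureTheory

namespace Pool.Agent.V1186.PJ

open Pool.Agent.H721R2 Pool.Agent.Y321.PJ

/-- `μ` is comparable with Lebesgue measure `m` near each point: on a neighbourhood `W` of `x₀` the
measure `μ` is between two positive multiples of the pull back of `m` by the chart at `x₀`. -/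
def VolumeLike {E : Type*} [NormedAddCommGroup E] [NormedSpace ℝ E] [MeasurableSpace E]
    (m : Measure E) {M : Type*} [TopologicalSpace M] [ChartedSpace E M] [MeasurableSpace M]
    (μ : Measure M) : Prop :=
  ∀ x₀ : M, ∃ W ∈ 𝓝 x₀, W ⊆ (extChartAt 𝓘(ℝ, E) x₀).source ∧ ∃ C : ℝ, ∀ B ⊆ W, MeasurableSet B →
    μ B ≤ ENNReal.ofReal C * m (extChartAt 𝓘(ℝ, E) x₀ '' B) ∧
    m (extChartAt 𝓘(ℝ, E) x₀ '' B) ≤ ENNReal.ofReal C * μ B

variable {E : Type*} [NormedAddCommGroup E] [NormedSpace ℝ E] [FiniteDimensional ℝ E]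
  {M : Type*} [MetricSpace M] [CompactSpace M] [ChartedSpace E M] [IsManifold 𝓘(ℝ, E) ∞ M]
  {F : Type*} [NormedAddCommGroup F] [InnerProductSpace ℝ F]
  [MeasurableSpace E] [BorelSpace E] [MeasurableSpace M] [BorelSpace M]

theorem vl_of_isVol {ν : Measure E} [ν.IsAddHaarMeasure] {e : M → F}
    (he : ContMDiff 𝓘(ℝ, E) 𝓘(ℝ, F) 2 e)
    (hinj : ∀ x, Function.Injective (dm E e x)) {μ : Measure M} (hμ : IsVol ν e μ) :
    VolumeLike ν μ := by
  intro x₀
  obtain ⟨r, hr, B, hball, hB⟩ := local_data (E := E) e he hinj x₀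
  set N : Set M := (extChartAt 𝓘(ℝ, E) x₀).source ∩
    extChartAt 𝓘(ℝ, E) x₀ ⁻¹' Metric.ball (extChartAt 𝓘(ℝ, E) x₀ x₀) r with hN
  have hNo : IsOpen N := (continuousOn_extChartAt x₀).isOpen_inter_preimage
    (isOpen_extChartAt_source x₀) Metric.isOpen_ball
  refine ⟨N, hNo.mem_nhds ⟨mem_extChartAt_source x₀, Metric.mem_ball_self hr⟩, inter_subset_left,
    Real.exp B, fun A hA hAm => ?_⟩
  have hAs : A ⊆ (extChartAt 𝓘(ℝ, E) x₀).source := hA.trans inter_subset_left
  have hm := meas_image x₀ A hAs hAm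
  have hsub : ∀ y ∈ extChartAt 𝓘(ℝ, E) x₀ '' A, |lh e x₀ y| ≤ B := by
    rintro _ ⟨x, hx, rfl⟩
    exact hB _ (hA hx).2
  rw [hμ x₀ A hAm hAs, vol_apply ν e x₀ hAm hAs]
  constructor
  · rw [← setLIntegral_const]
    exact setLIntegral_mono' hm fun y hy => ENNReal.ofReal_le_ofReal (Real.exp_le_exp.mpr
      ((le_abs_self _).trans (hsub y hy)))
  · have h1 : ENNReal.ofReal (Real.exp (-B)) * ν (extChartAt 𝓘(ℝ, E) x₀ '' A) ≤
        ∫⁻ y in extChartAt 𝓘(ℝ, E) x₀ '' A, dens e x₀ y ∂ν := by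
      rw [← setLIntegral_const]
      exact setLIntegral_mono' hm fun y hy => ENNReal.ofReal_le_ofReal (Real.exp_le_exp.mpr
        (neg_le_of_abs_le (hsub y hy)))
    calc ν (extChartAt 𝓘(ℝ, E) x₀ '' A) = ENNReal.ofReal (Real.exp B) *
          (ENNReal.ofReal (Real.exp (-B)) * ν (extChartAt 𝓘(ℝ, E) x₀ '' A)) := by
          rw [← mul_assoc, ← ENNReal.ofReal_mul (Real.exp_pos _).le, ← Real.exp_add]
          simp
      _ ≤ _ := by gcongr

theorem vl_le {ν : Measure E} {μ μ' : Measure M} (h : VolumeLike ν μ) (h' : VolumeLike ν μ') :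
    ∃ C : ℝ, μ ≤ ENNReal.ofReal C • μ' := by
  choose W hW hWs C hC using h
  choose W' hW' hWs' C' hC' using h'
  obtain ⟨t, -, ht⟩ := (isCompact_univ (X := M)).elim_nhds_subcover
    (fun x => interior (W x ∩ W' x)) (fun x _ =>
      interior_mem_nhds.mpr (inter_mem (hW x) (hW' x)))
  refine ⟨∑ x ∈ t, |C x| * |C' x|, Measure.le_iff.mpr fun A hA => ?_⟩
  rw [Measure.smul_apply, smul_eq_mul,
    ENNReal.ofReal_sum_of_nonneg (fun i _ => mul_nonneg (abs_nonneg _) (abs_nonneg _)),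
    Finset.sum_mul]
  have h1 : A ⊆ ⋃ x ∈ t, A ∩ interior (W x ∩ W' x) := by
    intro y hy
    have h2 := ht (mem_univ y)
    simp only [mem_iUnion, exists_prop] at h2 ⊢
    obtain ⟨x, hx, hyx⟩ := h2
    exact ⟨x, hx, hy, hyx⟩
  refine (measure_mono h1).trans ((measure_biUnion_finset_le t _).trans ?_)
  apply Finset.sum_le_sum
  intro x _
  have hm : MeasurableSet (A ∩ interior (W x ∩ W' x)) := hA.inter isOpen_interior.measurableSet
  have h2 := (hC x (A ∩ interior (W x ∩ W' x))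
    (fun y hy => (interior_subset hy.2).1) hm).1
  have h3 := (hC' x (A ∩ interior (W x ∩ W' x))
    (fun y hy => (interior_subset hy.2).2) hm).2
  calc μ (A ∩ interior (W x ∩ W' x)) ≤ ENNReal.ofReal (C x) *
        ν (extChartAt 𝓘(ℝ, E) x '' (A ∩ interior (W x ∩ W' x))) := h2
    _ ≤ ENNReal.ofReal (C x) * (ENNReal.ofReal (C' x) * μ' (A ∩ interior (W x ∩ W' x))) := by
        gcongr
    _ ≤ ENNReal.ofReal (|C x|) * (ENNReal.ofReal (|C' x|) * μ' A) := by
        gcongr
        · exact le_abs_self _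
        · exact le_abs_self _
        · exact inter_subset_left
    _ = ENNReal.ofReal (|C x| * |C' x|) * μ' A := by
        rw [ENNReal.ofReal_mul (abs_nonneg _), mul_assoc]

theorem vl_mono {ν : Measure E} {μ μ' : Measure M} (h : VolumeLike ν μ) {K : ℝ}
    (h1 : μ ≤ ENNReal.ofReal K • μ') (h2 : μ' ≤ ENNReal.ofReal K • μ) : VolumeLike ν μ' := by
  intro x₀
  obtain ⟨W, hW, hWs, C, hC⟩ := h x₀
  refine ⟨W, hW, hWs, |K| * |C|, fun B hB hBm => ?_⟩
  obtain ⟨h3, h4⟩ := hC B hB hBm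
  constructor
  · calc μ' B ≤ ENNReal.ofReal K * μ B := h2 B
      _ ≤ ENNReal.ofReal K * (ENNReal.ofReal C * ν (extChartAt 𝓘(ℝ, E) x₀ '' B)) := by gcongr
      _ ≤ ENNReal.ofReal |K| * (ENNReal.ofReal |C| * ν (extChartAt 𝓘(ℝ, E) x₀ '' B)) := by
          gcongr
          · exact le_abs_self _
          · exact le_abs_self _
      _ = _ := by rw [ENNReal.ofReal_mul (abs_nonneg _), mul_assoc]
  · calc ν (extChartAt 𝓘(ℝ, E) x₀ '' B) ≤ ENNReal.ofReal C * μ B := h4
      _ ≤ ENNReal.ofReal C * (ENNReal.ofReal K * μ' B) := by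
          gcongr
          exact h1 B
      _ ≤ ENNReal.ofReal |C| * (ENNReal.ofReal |K| * μ' B) := by
          gcongr
          · exact le_abs_self _
          · exact le_abs_self _
      _ = _ := by rw [ENNReal.ofReal_mul (abs_nonneg _)]; ring

end Pool.Agent.V1186.PJ
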