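import Pool.Agent.V1186.PJ.C2
import Pool.Agent.V1186.PJ.D
import Pool.Agent.V1186.PJ.VL

/-!
# Anosov diffeomorphisms: periodic Jacobians, invariant measures and transitivity
-/

set_option autoImplicit false
set_option linter.unusedSectionVars false

open scoped Manifold ContDiff Topology ENNReal
open Set Filter MeasureTheory

namespace Pool.Agent.V1186.PJ

open Pool.Agent.H789R2.AN Pool.Agent.H721R2 Pool.Agent.Y321.PJ Pool.Agent.TH289

variable {E : Type*} [NormedAddCommGroup E] [NormedSpace ℝ E] [FiniteDimensional ℝ E]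
  {M : Type*} [TopologicalSpace M] [T2Space M] [CompactSpace M] [ConnectedSpace M]
  [ChartedSpace E M] [IsManifold 𝓘(ℝ, E) ∞ M] [MeasurableSpace M] [BorelSpace M]

theorem man_main (f : Diffeomorph 𝓘(ℝ, E) 𝓘(ℝ, E) M M 1)
    (Es Eu : ∀ x : M, Submodule ℝ (TangentSpace 𝓘(ℝ, E) x)) (hA : IsAnosov f Es Eu)
    (μ : Measure M) [IsFiniteMeasure μ] [μ.IsOpenPosMeasure] (ψ : M → ℝ)
    (hψ : Continuous ψ ∧ Bowen f ψ ∨ LocHolder E ψ)
    (hμ : ∀ B, MeasurableSet B →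
      μ (f '' B) = ∫⁻ x in B, ENNReal.ofReal (Real.exp (ψ x)) ∂μ) :
    List.TFAE [∀ (n : ℕ) (p : M), 1 ≤ n → f^[n] p = p → ∑ i ∈ Finset.range n, ψ (f^[i] p) ≤ 0,
      ∀ (n : ℕ) (p : M), 1 ≤ n → f^[n] p = p → 0 ≤ ∑ i ∈ Finset.range n, ψ (f^[i] p),
      ∀ (n : ℕ) (p : M), 1 ≤ n → f^[n] p = p → ∑ i ∈ Finset.range n, ψ (f^[i] p) = 0,
      ∃ C : ℝ, ∀ (n : ℕ) (x : M), |∑ i ∈ Finset.range n, ψ (f^[i] x)| ≤ C,
      ∃ (ν : Measure M) (C : ℝ), ν.map f = ν ∧ μ ≤ ENNReal.ofReal C • ν ∧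
        ν ≤ ENNReal.ofReal C • μ] ∧
    (∀ A : Set M, UnstSat f.toHomeomorph A →
      (∀ (n : ℕ) (p : M), 1 ≤ n → p ∈ A → f^[n] p = p →
        0 ≤ ∑ i ∈ Finset.range n, ψ (f^[i] p)) → A = univ ∧ TopTransitive f) ∧
    (∀ A : Set M, UnstSat f.symm.toHomeomorph A →
      (∀ (n : ℕ) (p : M), 1 ≤ n → p ∈ A → f^[n] p = p →
        ∑ i ∈ Finset.range n, ψ (f^[i] p) ≤ 0) → A = univ ∧ TopTransitive f) ∧
    (¬ TopTransitive f → ∃ (n : ℕ) (P Q : Set M), 1 ≤ n ∧ P.Finite ∧ Q.Finite ∧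
      (∀ p ∈ P, f^[n] p = p ∧ ∑ i ∈ Finset.range n, ψ (f^[i] p) < 0) ∧
      (∀ q ∈ Q, f^[n] q = q ∧ 0 < ∑ i ∈ Finset.range n, ψ (f^[i] q)) ∧
      Dense {x : M | (∃ p ∈ P, Tendsto (fun k : ℕ => f^[n * k] x) atTop (𝓝 p)) ∧
        ∃ q ∈ Q, Tendsto (fun k : ℕ => f.symm^[n * k] x) atTop (𝓝 q)}) := by
  obtain ⟨m, e, he, hemb, hinj⟩ := exists_embedding_euclidean_of_compact (I := 𝓘(ℝ, E)) (M := M)
  let _ : MetricSpace M := hemb.isEmbedding.comapMetricSpace e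
  have hiso : ∀ x y : M, dist x y = ‖e x - e y‖ := fun x y => dist_eq_norm (e x) (e y)
  have he1 : ContMDiff 𝓘(ℝ, E) (𝓡 m) 1 e := he.of_le (by simp)
  obtain ⟨N, S, hN, hg⟩ := exists_sys1 hiso he1 hinj f Es Eu hA
  obtain ⟨c, hc⟩ := exists_LP S
  have hψc : Continuous ψ := by
    rcases hψ with h | h
    · exact h.1
    · exact h.continuous
  have hgood : Good f.toHomeomorph ψ N c := by
    rcases hψ with h | h
    · exact good_of_bowen hψc hN hc.c_pos.le h.2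
    · obtain ⟨ε, hε, α, hα, L, hL, h1⟩ := holder_unif (E := E) e hiso he1 hinj h
      obtain ⟨Lf, hLf⟩ := c1_lip (E := E) e hiso he1 hinj (e ∘ f) (he1.comp f.contMDiff)
      have hf : LipschitzWith Lf f.toHomeomorph := by
        apply LipschitzWith.of_dist_le_mul
        intro x y
        have h2 := hLf.dist_le_mul x y
        rw [dist_eq_norm] at h2
        rw [hiso]
        exact h2
      exact good_of_holder hψc hc.c_pos.le hf hε hα hL h1
  have hJ : Jac f.toHomeomorph μ ψ := jac_of (f := f.toHomeomorph) hψc hμ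
  obtain ⟨h1, -⟩ := abs_tfae S (f := f.toHomeomorph) hN hg hc hψc hgood μ hJ
  exact ⟨h1, fun A hA hp => att_case S (f := f.toHomeomorph) hN hg hc hψc hgood μ hJ hA hp,
    fun A hA hp => rep_case S (f := f.toHomeomorph) hN hg hc hψc hgood μ hJ hA hp,
    fun hnt => abs_het S (f := f.toHomeomorph) hN hg hc hψc hgood μ hJ hnt⟩

theorem man_smooth (f : Diffeomorph 𝓘(ℝ, E) 𝓘(ℝ, E) M M 1)
    (hf2 : ContMDiff 𝓘(ℝ, E) 𝓘(ℝ, E) 2 f) (hf2' : ContMDiff 𝓘(ℝ, E) 𝓘(ℝ, E) 2 f.symm)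
    (Es Eu : ∀ x : M, Submodule ℝ (TangentSpace 𝓘(ℝ, E) x)) (hA : IsAnosov f Es Eu)
    [MeasurableSpace E] [BorelSpace E] (m : Measure E) [m.IsAddHaarMeasure] :
    List.TFAE [∀ (n : ℕ) (p : M), 1 ≤ n → f^[n] p = p → perJac E f n p ≤ 1,
      ∀ (n : ℕ) (p : M), 1 ≤ n → f^[n] p = p → 1 ≤ perJac E f n p,
      ∀ (n : ℕ) (p : M), 1 ≤ n → f^[n] p = p → perJac E f n p = 1,
      ∃ ν : Measure M, IsFiniteMeasure ν ∧ ν.map f = ν ∧ VolumeLike m ν] ∧
    (∀ A : Set M, UnstSat f.toHomeomorph A →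
      (∀ (n : ℕ) (p : M), 1 ≤ n → p ∈ A → f^[n] p = p → 1 ≤ perJac E f n p) →
      A = univ ∧ TopTransitive f) ∧
    (∀ A : Set M, UnstSat f.symm.toHomeomorph A →
      (∀ (n : ℕ) (p : M), 1 ≤ n → p ∈ A → f^[n] p = p → perJac E f n p ≤ 1) →
      A = univ ∧ TopTransitive f) := by
  obtain ⟨m', e, he, hemb, hinj⟩ := exists_embedding_euclidean_of_compact (I := 𝓘(ℝ, E)) (M := M)
  let _ : MetricSpace M := hemb.isEmbedding.comapMetricSpace e
  have hiso : ∀ x y : M, dist x y = ‖e x - e y‖ := fun x y => dist_eq_norm (e x) (e y)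
  have he1 : ContMDiff 𝓘(ℝ, E) (𝓡 m') 1 e := he.of_le (by simp)
  have he2 : ContMDiff 𝓘(ℝ, E) (𝓡 m') 2 e := he.of_le ENat.LEInfty.out
  obtain ⟨N, S, hN, hg⟩ := exists_sys1 hiso he1 hinj f Es Eu hA
  obtain ⟨c, hc⟩ := exists_LP S
  have hl : ∀ x, f.symm (f x) = x := f.symm_apply_apply
  have hr : ∀ x, f (f.symm x) = x := f.apply_symm_apply
  obtain ⟨L, hL⟩ := jac_lip e hiso he2 hinj f f.symm hf2 hf2' hl
  have hψc : Continuous (jac E e f) := hL.continuous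
  obtain ⟨Lf, hLf⟩ := c1_lip (E := E) e hiso he1 hinj (e ∘ f) (he1.comp f.contMDiff)
  have hf : LipschitzWith Lf f.toHomeomorph := by
    apply LipschitzWith.of_dist_le_mul
    intro x y
    have h2 := hLf.dist_le_mul x y
    rw [dist_eq_norm] at h2
    rw [hiso]
    exact h2
  have hgood : Good f.toHomeomorph (jac E e f) N c := by
    refine good_of_holder hψc hc.c_pos.le hf one_pos one_pos L.coe_nonneg fun x y _ => ?_
    rw [Real.rpow_one]
    have := hL.dist_le_mul x y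
    rwa [Real.dist_eq] at this
  obtain ⟨μ, hμf, hμ⟩ := exists_vol (E := E) m e he2 hinj
  have hμo : μ.IsOpenPosMeasure := vol_openPos he1 hinj hμ
  have hJ : Jac f.toHomeomorph μ (jac E e f) := jac_of (f := f.toHomeomorph) hψc fun B hB =>
    vol_jac he1 hinj hμ f f.symm f.contMDiff f.symm.contMDiff hl hr hψc hB
  obtain ⟨h1, -⟩ := abs_tfae S (f := f.toHomeomorph) hN hg hc hψc hgood μ hJ
  -- periodic data
  have hper : ∀ (n : ℕ) (p : M), f^[n] p = p → 0 < perJac E f n p ∧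
      birk f.toHomeomorph (jac E e f) n p = Real.log (perJac E f n p) := by
    intro n p hp
    have h3 : birk f.toHomeomorph (jac E e f) n p = jac E e (f^[n]) p :=
      jac_iter e he1 hinj f f.symm f.contMDiff f.symm.contMDiff hl n p
    have hd : (dg E (f^[n]) p).det ≠ 0 := by
      have h4 := det_dg_ne (f^[n]) (f.symm^[n]) (iter_smooth f f.contMDiff n)
        (iter_smooth f.symm f.symm.contMDiff n)
        (fun x => (Function.LeftInverse.iterate (f := f) (g := f.symm) hl n) x) p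
      intro h5
      rw [h5, mul_zero] at h4
      exact zero_ne_one h4
    refine ⟨abs_pos.mpr hd, ?_⟩
    rw [h3, jac_eq e he1 hinj _ (iter_smooth f f.contMDiff n) p hd, hp]
    show Real.log |(dg E (f^[n]) p).det| + uu E e p - uu E e p = Real.log |(dg E (f^[n]) p).det|
    ring
  have e1 : (∀ (n : ℕ) (p : M), 1 ≤ n → f^[n] p = p → perJac E f n p ≤ 1) ↔
      ∀ (n : ℕ) (p : M), 1 ≤ n → f.toHomeomorph^[n] p = p →
        birk f.toHomeomorph (jac E e f) n p ≤ 0 := by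
    refine forall₄_congr fun n p _ hp => ?_
    obtain ⟨h3, h4⟩ := hper n p hp
    rw [h4, Real.log_nonpos_iff h3.le]
  have e2 : (∀ (n : ℕ) (p : M), 1 ≤ n → f^[n] p = p → 1 ≤ perJac E f n p) ↔
      ∀ (n : ℕ) (p : M), 1 ≤ n → f.toHomeomorph^[n] p = p →
        0 ≤ birk f.toHomeomorph (jac E e f) n p := by
    refine forall₄_congr fun n p _ hp => ?_
    obtain ⟨h3, h4⟩ := hper n p hp
    rw [h4, Real.log_nonneg_iff h3]
  have e3 : (∀ (n : ℕ) (p : M), 1 ≤ n → f^[n] p = p → perJac E f n p = 1) ↔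
      ∀ (n : ℕ) (p : M), 1 ≤ n → f.toHomeomorph^[n] p = p →
        birk f.toHomeomorph (jac E e f) n p = 0 := by
    constructor
    · intro h n p hn hp
      rw [(hper n p hp).2, h n p hn hp, Real.log_one]
    · intro h n p hn hp
      obtain ⟨h3, h4⟩ := hper n p hp
      have h5 := h n p hn hp
      rw [h4] at h5
      exact Real.eq_one_of_pos_of_log_eq_zero h3 h5
  have e4 : (∃ ν : Measure M, IsFiniteMeasure ν ∧ ν.map f = ν ∧ VolumeLike m ν) ↔
      ∃ (ν : Measure M) (C : ℝ), ν.map f.toHomeomorph = ν ∧ μ ≤ ENNReal.ofReal C • ν ∧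
        ν ≤ ENNReal.ofReal C • μ := by
    have hvl : VolumeLike m μ := vl_of_isVol he2 hinj hμ
    constructor
    · rintro ⟨ν, -, hν, hνl⟩
      obtain ⟨C₁, h3⟩ := vl_le hvl hνl
      obtain ⟨C₂, h4⟩ := vl_le hνl hvl
      refine ⟨ν, max C₁ C₂, hν, h3.trans ?_, h4.trans ?_⟩
      · refine Measure.le_iff.mpr fun B _ => ?_
        rw [Measure.smul_apply, Measure.smul_apply, smul_eq_mul, smul_eq_mul]
        gcongr
        exact le_max_left _ _
      · refine Measure.le_iff.mpr fun B _ => ?_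
        rw [Measure.smul_apply, Measure.smul_apply, smul_eq_mul, smul_eq_mul]
        gcongr
        exact le_max_right _ _
    · rintro ⟨ν, C, hν, h3, h4⟩
      refine ⟨ν, ⟨?_⟩, hν, vl_mono hvl h3 h4⟩
      refine (h4 univ).trans_lt ?_
      rw [Measure.smul_apply, smul_eq_mul]
      exact ENNReal.mul_lt_top ENNReal.ofReal_lt_top (measure_lt_top μ _)
  refine ⟨?_, fun A hA' h3 => ?_, fun A hA' h3 => ?_⟩
  · rw [e1, e2, e3, e4]
    tfae_have 1 ↔ 3 := h1.out 0 2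
    tfae_have 2 ↔ 3 := h1.out 1 2
    tfae_have 4 ↔ 3 := h1.out 4 2
    tfae_finish
  · refine att_case S (f := f.toHomeomorph) hN hg hc hψc hgood μ hJ hA' fun n p hn hpA hp => ?_
    obtain ⟨h4, h5⟩ := hper n p hp
    rw [h5, Real.log_nonneg_iff h4]
    exact h3 n p hn hpA hp
  · refine rep_case S (f := f.toHomeomorph) hN hg hc hψc hgood μ hJ hA' fun n p hn hpA hp => ?_
    obtain ⟨h4, h5⟩ := hper n p hp
    rw [h5, Real.log_nonpos_iff h4.le]
    exact h3 n p hn hpA hp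

end Pool.Agent.V1186.PJ
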