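import Pool.Agent.Y321.PJ.Abs

/-!
# Finite measures with a continuous Jacobian: iterates, inverse, invariant measures
-/

set_option autoImplicit false
set_option linter.unusedSectionVars false

open Filter Topology Set Metric MeasureTheory
open scoped ENNReal

namespace Pool.Agent.V1186.PJ

open Pool.Agent.H789R2.AN Pool.Agent.H721R2 Pool.Agent.Y321.PJ

variable {X : Type*} [MetricSpace X]

theorem cont_birk {f : X ≃ₜ X} {ψ : X → ℝ} (hψ : Continuous ψ) (n : ℕ) :
    Continuous (birk f ψ n) := by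
  unfold birk
  exact continuous_finsetSum _ fun i _ => hψ.comp (f.continuous.iterate i)

theorem birk_zero (f : X ≃ₜ X) (ψ : X → ℝ) (x : X) : birk f ψ 0 x = 0 := by simp [birk]

theorem birk_add (f : X ≃ₜ X) (ψ : X → ℝ) (m n : ℕ) (x : X) :
    birk f ψ (m + n) x = birk f ψ m x + birk f ψ n (f^[m] x) := by
  unfold birk
  rw [Finset.sum_range_add]
  congr 1
  apply Finset.sum_congr rfl
  intro i _
  rw [Nat.add_comm m i, Function.iterate_add_apply]

theorem birk_one (f : X ≃ₜ X) (ψ : X → ℝ) (x : X) : birk f ψ 1 x = ψ x := by simp [birk]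

theorem birk_succ (f : X ≃ₜ X) (ψ : X → ℝ) (n : ℕ) (x : X) :
    birk f ψ (n + 1) x = ψ x + birk f ψ n (f x) := by
  rw [Nat.add_comm n 1, birk_add, birk_one]; rfl

theorem birk_succ' (f : X ≃ₜ X) (ψ : X → ℝ) (n : ℕ) (x : X) :
    birk f ψ (n + 1) x = birk f ψ n x + ψ (f^[n] x) := by
  rw [birk_add, birk_one]

/-- Birkhoff sums for the inverse. -/
theorem birk_symm (f : X ≃ₜ X) (ψ : X → ℝ) (n : ℕ) (x : X) :
    birk f.symm (fun x => -ψ (f.symm x)) n x = -birk f ψ n (f.symm^[n] x) := by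
  unfold birk
  rw [Finset.sum_neg_distrib]
  congr 1
  rw [← Finset.sum_range_reflect]
  apply Finset.sum_congr rfl
  intro i hi
  rw [Finset.mem_range] at hi
  congr 1
  have e : n = i + (n - 1 - i + 1) := by omega
  have e2 : f.symm^[n] x = f.symm^[i] (f.symm^[n - 1 - i + 1] x) := by
    rw [← Function.iterate_add_apply, ← e]
  rw [e2, iterR, Function.iterate_succ_apply']

variable [MeasurableSpace X] [BorelSpace X]

/-- `μ ∘ f` has density `exp ψ` with respect to `μ`. -/
def Jac (f : X ≃ₜ X) (μ : Measure X) (ψ : X → ℝ) : Prop :=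
  ∀ h : X → ℝ≥0∞, Measurable h →
    ∫⁻ x, h (f.symm x) ∂μ = ∫⁻ x, ENNReal.ofReal (Real.exp (ψ x)) * h x ∂μ

theorem meas_exp {ψ : X → ℝ} (hψ : Continuous ψ) :
    Measurable fun x => ENNReal.ofReal (Real.exp (ψ x)) :=
  (ENNReal.continuous_ofReal.comp (Real.continuous_exp.comp hψ)).measurable

theorem jac_of {f : X ≃ₜ X} {μ : Measure X} {ψ : X → ℝ} (hψ : Continuous ψ)
    (h : ∀ B, MeasurableSet B →
      μ (f '' B) = ∫⁻ x in B, ENNReal.ofReal (Real.exp (ψ x)) ∂μ) : Jac f μ ψ := by
  have hm := meas_exp hψ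
  have e : μ.map f.symm = μ.withDensity fun x => ENNReal.ofReal (Real.exp (ψ x)) := by
    ext B hB
    rw [Measure.map_apply f.symm.continuous.measurable hB, withDensity_apply _ hB, ← h B hB]
    congr 1
    exact (f.image_eq_preimage_symm B).symm
  intro k hk
  rw [← lintegral_map hk f.symm.continuous.measurable, e,
    lintegral_withDensity_eq_lintegral_mul _ hm hk]
  rfl

theorem Jac.symm {f : X ≃ₜ X} {μ : Measure X} {ψ : X → ℝ} (hψ : Continuous ψ)
    (h : Jac f μ ψ) : Jac f.symm μ (fun x => -ψ (f.symm x)) := by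
  intro k hk
  have h1 := h (fun x => ENNReal.ofReal (Real.exp (-ψ x)) * k (f x))
    ((meas_exp hψ.neg).mul (hk.comp f.continuous.measurable))
  have e1 : ∀ x, ENNReal.ofReal (Real.exp (-ψ (f.symm x))) * k (f (f.symm x)) =
      ENNReal.ofReal (Real.exp (-ψ (f.symm x))) * k x := fun x => by rw [f.apply_symm_apply]
  have e2 : ∀ x, ENNReal.ofReal (Real.exp (ψ x)) *
      (ENNReal.ofReal (Real.exp (-ψ x)) * k (f x)) = k (f x) := by
    intro x
    rw [← mul_assoc, ← ENNReal.ofReal_mul (Real.exp_pos _).le, ← Real.exp_add]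
    simp
  simp only [e1, e2] at h1
  exact h1.symm

theorem Jac.iter {f : X ≃ₜ X} {μ : Measure X} {ψ : X → ℝ} (hψ : Continuous ψ)
    (h : Jac f μ ψ) (n : ℕ) : ∀ k : X → ℝ≥0∞, Measurable k →
    ∫⁻ x, k (f.symm^[n] x) ∂μ = ∫⁻ x, ENNReal.ofReal (Real.exp (birk f ψ n x)) * k x ∂μ := by
  induction n with
  | zero => intro k _; simp [birk_zero]
  | succ n ih =>
    intro k hk
    have h1 := h (fun x => k (f.symm^[n] x)) (hk.comp (f.symm.continuous.iterate n).measurable)
    have h2 := ih (fun x => ENNReal.ofReal (Real.exp (ψ (f^[n] x))) * k x)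
      ((meas_exp (hψ.comp (f.continuous.iterate n))).mul hk)
    have e1 : ∀ x, k (f.symm^[n + 1] x) = k (f.symm^[n] (f.symm x)) := fun x => by
      rw [Function.iterate_succ_apply]
    have e2 : ∀ x, ENNReal.ofReal (Real.exp (ψ (f^[n] (f.symm^[n] x)))) * k (f.symm^[n] x) =
        ENNReal.ofReal (Real.exp (ψ x)) * k (f.symm^[n] x) := fun x => by rw [iterR]
    simp only [e1]
    rw [h1]
    simp only [e2] at h2
    rw [h2]
    apply lintegral_congr
    intro x
    rw [← mul_assoc, ← ENNReal.ofReal_mul (Real.exp_pos _).le, ← Real.exp_add, birk_succ']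

theorem Jac.meas {f : X ≃ₜ X} {μ : Measure X} {ψ : X → ℝ} (hψ : Continuous ψ)
    (h : Jac f μ ψ) (n : ℕ) {W : Set X} (hW : MeasurableSet W) :
    μ (f^[n] '' W) = ∫⁻ x in W, ENNReal.ofReal (Real.exp (birk f ψ n x)) ∂μ := by
  have h1 := h.iter hψ n (W.indicator 1) (measurable_one.indicator hW)
  have e1 : f^[n] '' W = f.symm^[n] ⁻¹' W := by
    ext y
    constructor
    · rintro ⟨x, hx, rfl⟩
      show f.symm^[n] (f^[n] x) ∈ W
      rw [iterL]; exact hx
    · intro hy
      exact ⟨f.symm^[n] y, hy, iterR f n y⟩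
  have hW' : MeasurableSet (f.symm^[n] ⁻¹' W) := (f.symm.continuous.iterate n).measurable hW
  have e2 : ∀ x, W.indicator (1 : X → ℝ≥0∞) (f.symm^[n] x) =
      (f.symm^[n] ⁻¹' W).indicator (1 : X → ℝ≥0∞) x := fun x => rfl
  simp only [e2] at h1
  rw [lintegral_indicator_one hW'] at h1
  rw [e1, h1, ← lintegral_indicator hW]
  apply lintegral_congr
  intro x
  by_cases hx : x ∈ W
  · simp [hx]
  · simp [hx]

theorem Jac.lower {f : X ≃ₜ X} {μ : Measure X} {ψ : X → ℝ} (hψ : Continuous ψ)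
    (h : Jac f μ ψ) (n : ℕ) {W : Set X} (hW : MeasurableSet W) {C : ℝ}
    (hC : ∀ y ∈ W, -C ≤ birk f ψ n y) :
    ENNReal.ofReal (Real.exp (-C)) * μ W ≤ μ (f^[n] '' W) := by
  rw [h.meas hψ n hW, ← setLIntegral_const]
  exact setLIntegral_mono' hW fun y hy =>
    ENNReal.ofReal_le_ofReal (Real.exp_le_exp.mpr (hC y hy))

/-- Null sets have null preimages. -/
theorem Jac.null {f : X ≃ₜ X} {μ : Measure X} {ψ : X → ℝ} (hψ : Continuous ψ)
    (h : Jac f μ ψ) {P : X → Prop} (hP : ∀ᵐ x ∂μ, P x) : ∀ᵐ x ∂μ, P (f x) := by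
  have h1 := h.symm hψ
  rw [ae_iff] at hP ⊢
  obtain ⟨N, hN, hNm, hN0⟩ := exists_measurable_superset_of_null hP
  have h2 := h1 (N.indicator 1) (measurable_one.indicator hNm)
  have e2 : ∀ x, N.indicator (1 : X → ℝ≥0∞) (f.symm.symm x) =
      (f ⁻¹' N).indicator (1 : X → ℝ≥0∞) x := fun x => rfl
  simp only [e2] at h2
  rw [lintegral_indicator_one (f.continuous.measurable hNm)] at h2
  have h3 : ∫⁻ x, ENNReal.ofReal (Real.exp (-ψ (f.symm x))) * N.indicator 1 x ∂μ = 0 := by
    have h6 : ∀ᵐ x ∂μ, x ∉ N := by rw [ae_iff]; simpa using hN0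
    have h7 : ∀ᵐ x ∂μ, ENNReal.ofReal (Real.exp (-ψ (f.symm x))) *
        N.indicator (1 : X → ℝ≥0∞) x = 0 := by
      filter_upwards [h6] with x hx
      simp [hx]
    rw [lintegral_congr_ae h7]
    simp
  rw [h3] at h2
  refine measure_mono_null (fun x hx => ?_) h2
  exact hN hx

/-- Bounded Birkhoff sums: a bounded solution of the cohomological equation. -/
theorem exists_dens {f : X ≃ₜ X} {μ : Measure X} [IsFiniteMeasure μ] {ψ : X → ℝ}
    (hψ : Continuous ψ) (h : Jac f μ ψ) {C : ℝ} (hC : ∀ n x, birk f ψ n x ≤ C) :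
    ∃ ρ : X → ℝ≥0∞, Measurable ρ ∧ (∀ x, 1 ≤ ρ x) ∧ (∀ x, ρ x ≤ ENNReal.ofReal (Real.exp C)) ∧
      ∀ᵐ x ∂μ, ENNReal.ofReal (Real.exp (ψ x)) * ρ (f x) = ρ x := by
  set ρ : X → ℝ≥0∞ := fun x => ⨆ n : ℕ, ENNReal.ofReal (Real.exp (birk f ψ n x)) with hρ
  have hρm : Measurable ρ := Measurable.iSup fun n => meas_exp (cont_birk hψ n)
  have h1 : ∀ x, 1 ≤ ρ x := by
    intro x
    refine le_trans ?_ (le_iSup (fun n => ENNReal.ofReal (Real.exp (birk f ψ n x))) 0)
    simp [birk_zero]
  have h2 : ∀ x, ρ x ≤ ENNReal.ofReal (Real.exp C) := fun x =>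
    iSup_le fun n => ENNReal.ofReal_le_ofReal (Real.exp_le_exp.mpr (hC n x))
  have h3 : ∀ x, ENNReal.ofReal (Real.exp (ψ x)) * ρ (f x) ≤ ρ x := by
    intro x
    rw [hρ]
    simp only
    rw [ENNReal.mul_iSup]
    refine iSup_le fun n => ?_
    refine le_trans (le_of_eq ?_)
      (le_iSup (fun n => ENNReal.ofReal (Real.exp (birk f ψ n x))) (n + 1))
    rw [← ENNReal.ofReal_mul (Real.exp_pos _).le, ← Real.exp_add, birk_succ]
  have h4 := h (fun x => ρ (f x)) (hρm.comp f.continuous.measurable)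
  simp only [f.apply_symm_apply] at h4
  have h5 : ∫⁻ x, ENNReal.ofReal (Real.exp (ψ x)) * ρ (f x) ∂μ ≠ ⊤ := by
    rw [← h4]
    refine ((lintegral_mono h2).trans_lt ?_).ne
    rw [lintegral_const]
    exact ENNReal.mul_lt_top ENNReal.ofReal_lt_top (measure_lt_top μ _)
  exact ⟨ρ, hρm, h1, h2, ae_eq_of_ae_le_of_lintegral_le (Eventually.of_forall h3) h5
    hρm.aemeasurable h4.le⟩

theorem dens_iter {f : X ≃ₜ X} {μ : Measure X} {ψ : X → ℝ}
    (hψ : Continuous ψ) (h : Jac f μ ψ) {ρ : X → ℝ≥0∞}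
    (hρ : ∀ᵐ x ∂μ, ENNReal.ofReal (Real.exp (ψ x)) * ρ (f x) = ρ x) (n : ℕ) :
    ∀ᵐ x ∂μ, ENNReal.ofReal (Real.exp (birk f ψ n x)) * ρ (f^[n] x) = ρ x := by
  induction n with
  | zero => simp [birk_zero]
  | succ n ih =>
    filter_upwards [hρ, h.null hψ ih] with x h1 h2
    rw [birk_succ, Real.exp_add, ENNReal.ofReal_mul (Real.exp_pos _).le, mul_assoc,
      Function.iterate_succ_apply, h2, h1]

/-- For a measure of full support, an inequality between continuous functions almost everywhere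
holds everywhere. -/
theorem ae_le_all {μ : Measure X} [μ.IsOpenPosMeasure] {u : X → ℝ} (hu : Continuous u) {a : ℝ}
    (h : ∀ᵐ x ∂μ, a ≤ u x) (x : X) : a ≤ u x := by
  by_contra hx
  push Not at hx
  have ho : IsOpen {x | u x < a} := isOpen_lt hu continuous_const
  have h0 : μ {x | u x < a} = 0 := by
    rw [ae_iff] at h
    convert h using 2
    ext y
    simp
  exact (ho.measure_pos μ ⟨x, hx⟩).ne' h0

/-- Birkhoff sums bounded above are bounded below. -/
theorem lower_of_upper {f : X ≃ₜ X} {μ : Measure X} [IsFiniteMeasure μ] [μ.IsOpenPosMeasure]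
    {ψ : X → ℝ} (hψ : Continuous ψ) (h : Jac f μ ψ) {C : ℝ} (hC : ∀ n x, birk f ψ n x ≤ C) :
    ∀ n x, -C ≤ birk f ψ n x := by
  obtain ⟨ρ, -, h1, h2, h3⟩ := exists_dens hψ h hC
  intro n
  refine ae_le_all (μ := μ) (cont_birk hψ n) ?_
  filter_upwards [dens_iter hψ h h3 n] with x hx
  have h4 : (1 : ℝ≥0∞) ≤ ENNReal.ofReal (Real.exp (birk f ψ n x + C)) := by
    calc (1 : ℝ≥0∞) ≤ ρ x := h1 x
      _ = ENNReal.ofReal (Real.exp (birk f ψ n x)) * ρ (f^[n] x) := hx.symm
      _ ≤ ENNReal.ofReal (Real.exp (birk f ψ n x)) * ENNReal.ofReal (Real.exp C) := by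
          gcongr
          exact h2 _
      _ = _ := by rw [← ENNReal.ofReal_mul (Real.exp_pos _).le, ← Real.exp_add]
  rw [ENNReal.one_le_ofReal, Real.one_le_exp_iff] at h4
  linarith

/-- Birkhoff sums bounded below are bounded above. -/
theorem upper_of_lower {f : X ≃ₜ X} {μ : Measure X} [IsFiniteMeasure μ] [μ.IsOpenPosMeasure]
    {ψ : X → ℝ} (hψ : Continuous ψ) (h : Jac f μ ψ) {C : ℝ} (hC : ∀ n x, -C ≤ birk f ψ n x) :
    ∀ n x, birk f ψ n x ≤ C := by
  have hψ' : Continuous fun x => -ψ (f.symm x) := (hψ.comp f.symm.continuous).neg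
  have h1 := lower_of_upper hψ' (h.symm hψ) (C := C) (by
    intro n x
    have h3 := birk_symm f ψ n x
    have h2 := hC n (f.symm^[n] x)
    rw [h3]
    linarith)
  intro n x
  have h2 := h1 n (f^[n] x)
  rw [birk_symm f ψ n (f^[n] x), iterL] at h2
  linarith

/-- The invariant measure. -/
theorem exists_inv {f : X ≃ₜ X} {μ : Measure X} [IsFiniteMeasure μ] {ψ : X → ℝ}
    (hψ : Continuous ψ) (h : Jac f μ ψ) {C : ℝ} (hC : ∀ n x, birk f ψ n x ≤ C) :
    ∃ ν : Measure X, ν.map f = ν ∧ μ ≤ ν ∧ ν ≤ ENNReal.ofReal (Real.exp C) • μ := by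
  obtain ⟨ρ, hρm, h1, h2, h3⟩ := exists_dens hψ h hC
  refine ⟨μ.withDensity ρ, ?_, ?_, ?_⟩
  · ext B hB
    have hk : Measurable fun x => (B.indicator (1 : X → ℝ≥0∞) (f x)) * ρ (f x) :=
      ((measurable_one.indicator hB).comp f.continuous.measurable).mul
        (hρm.comp f.continuous.measurable)
    have h4 := h _ hk
    simp only [f.apply_symm_apply] at h4
    have h5 : ∫⁻ x, ENNReal.ofReal (Real.exp (ψ x)) * (B.indicator 1 (f x) * ρ (f x)) ∂μ =
        ∫⁻ x, B.indicator 1 (f x) * ρ x ∂μ := by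
      apply lintegral_congr_ae
      filter_upwards [h3] with x hx
      rw [← hx]
      ring
    rw [Measure.map_apply f.continuous.measurable hB, withDensity_apply _ hB,
      withDensity_apply _ (f.continuous.measurable hB),
      ← lintegral_indicator (f.continuous.measurable hB), ← lintegral_indicator hB]
    have e1 : ∀ x, (f ⁻¹' B).indicator ρ x = B.indicator 1 (f x) * ρ x := by
      intro x
      by_cases hx : f x ∈ B
      · simp [hx]
      · simp [hx]
    have e2 : ∀ x, B.indicator ρ x = B.indicator 1 x * ρ x := by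
      intro x
      by_cases hx : x ∈ B
      · simp [hx]
      · simp [hx]
    simp only [e1, e2]
    rw [h4, h5]
  · refine Measure.le_iff.mpr fun B hB => ?_
    rw [withDensity_apply _ hB]
    calc μ B = ∫⁻ _ in B, 1 ∂μ := by simp
      _ ≤ _ := lintegral_mono h1
  · refine Measure.le_iff.mpr fun B hB => ?_
    rw [withDensity_apply _ hB]
    calc ∫⁻ x in B, ρ x ∂μ ≤ ∫⁻ _ in B, ENNReal.ofReal (Real.exp C) ∂μ := lintegral_mono h2
      _ = _ := by rw [setLIntegral_const]; rfl

/-- An equivalent invariant measure with bounded densities gives bounded Birkhoff sums. -/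
theorem bounded_of_inv {f : X ≃ₜ X} {μ ν : Measure X} [IsFiniteMeasure μ] [μ.IsOpenPosMeasure]
    {ψ : X → ℝ} (hψ : Continuous ψ) (h : Jac f μ ψ) (hν : ν.map f = ν) {a b : ℝ} (ha : 0 ≤ a)
    (hb : 0 ≤ b) (h1 : μ ≤ ENNReal.ofReal a • ν) (h2 : ν ≤ ENNReal.ofReal b • μ) :
    ∀ n x, birk f ψ n x ≤ a * b := by
  have hinv : ∀ (n : ℕ) (B : Set X), MeasurableSet B → ν (f^[n] '' B) = ν B := by
    intro n
    induction n with
    | zero => intro B _; simp
    | succ n ih =>
      intro B hB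
      have e : f^[n + 1] '' B = f '' (f^[n] '' B) := by
        rw [← image_comp]
        apply image_congr
        intro x _
        rw [Function.comp_apply, Function.iterate_succ_apply']
      have hB' : MeasurableSet (f^[n] '' B) := by
        have e1 : f^[n] '' B = f.symm^[n] ⁻¹' B := by
          ext y
          constructor
          · rintro ⟨x, hx, rfl⟩
            show f.symm^[n] (f^[n] x) ∈ B
            rw [iterL]; exact hx
          · intro hy
            exact ⟨f.symm^[n] y, hy, iterR f n y⟩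
        rw [e1]
        exact (f.symm.continuous.iterate n).measurable hB
      have hB'' : MeasurableSet (f '' (f^[n] '' B)) := (f.measurableEmbedding).measurableSet_image.mpr hB'
      rw [e, ← ih B hB]
      conv_lhs => rw [← hν]
      rw [Measure.map_apply f.continuous.measurable hB'', f.preimage_image]
  intro n x
  have hcont := cont_birk (f := f) hψ n
  have key : ∀ᵐ x ∂μ, -(a * b) ≤ -birk f ψ n x := by
    have h3 : ∀ B, MeasurableSet B → μ (f^[n] '' B) ≤ ENNReal.ofReal (a * b) * μ B := by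
      intro B hB
      calc μ (f^[n] '' B) ≤ ENNReal.ofReal a * ν (f^[n] '' B) := h1 _
        _ = ENNReal.ofReal a * ν B := by rw [hinv n B hB]
        _ ≤ ENNReal.ofReal a * (ENNReal.ofReal b * μ B) := by
            gcongr
            exact h2 _
        _ = _ := by rw [← mul_assoc, ← ENNReal.ofReal_mul ha]
    rw [ae_iff]
    set B : Set X := {x | ¬ -(a * b) ≤ -birk f ψ n x} with hB
    have hBo : IsOpen B := by
      have : B = {x | a * b < birk f ψ n x} := by
        ext x
        simp [hB]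
      rw [this]
      exact isOpen_lt continuous_const hcont
    have h4 := h3 B hBo.measurableSet
    rw [h.meas hψ n hBo.measurableSet] at h4
    by_contra hne
    have h5 : ENNReal.ofReal (a * b) * μ B < ∫⁻ x in B, ENNReal.ofReal (Real.exp (birk f ψ n x)) ∂μ := by
      rw [← setLIntegral_const]
      refine lintegral_strict_mono ?_ (meas_exp hcont).aemeasurable ?_ ?_
      · intro h0
        exact hne (Measure.restrict_eq_zero.mp h0)
      · rw [setLIntegral_const]
        exact ENNReal.mul_ne_top ENNReal.ofReal_ne_top (measure_ne_top μ _)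
      · rw [ae_restrict_iff' hBo.measurableSet]
        refine Eventually.of_forall fun y hy => ?_
        have hy' : a * b < birk f ψ n y := by
          have : ¬ -(a * b) ≤ -birk f ψ n y := hy
          push Not at this
          linarith
        apply ENNReal.ofReal_lt_ofReal_iff'.mpr
        refine ⟨?_, Real.exp_pos _⟩
        have := Real.add_one_le_exp (birk f ψ n y)
        linarith
    exact absurd h4 (not_le.mpr h5)
  have hcont' : Continuous fun x => -birk f ψ n x := hcont.neg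
  have := ae_le_all (μ := μ) hcont' key x
  linarith

end Pool.Agent.V1186.PJ
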