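import Pool.Agent.V1186.PJ.A
import Pool.Agent.Y330.G.A8

/-!
# Periodic data of Birkhoff sums and transitivity, abstract part
-/

set_option autoImplicit false
set_option linter.unusedSectionVars false

open Filter Topology Set Metric MeasureTheory
open scoped ENNReal

namespace Pool.Agent.V1186.PJ

open Pool.Agent.H789R2.AN Pool.Agent.H721R2 Pool.Agent.Y321.PJ

variable {X : Type*} [MetricSpace X]

/-- Birkhoff sums at exponentially close orbit segments have bounded differences. -/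
def WB (g : X ≃ₜ X) (φ : X → ℝ) (c : ℝ) : Prop :=
  ∃ K : ℝ, ∀ (n : ℕ) (x y : X),
    (∀ i ≤ n, dist (g^[i] x) (g^[i] y) ≤ c * (1 / 2) ^ i + c * (1 / 2) ^ (n - i)) →
    |birk g φ n x - birk g φ n y| ≤ K

theorem fwd_back (f : X ≃ₜ X) {i n : ℕ} (hi : i ≤ n) (x : X) :
    f^[i] (f.symm^[n] x) = f.symm^[n - i] x := by
  have e2 : f.symm^[n] x = f.symm^[i] (f.symm^[n - i] x) := by
    rw [← Function.iterate_add_apply]; congr 1; omega
  rw [e2, iterR]

theorem WB.symm {g : X ≃ₜ X} {φ : X → ℝ} {c : ℝ} (h : WB g φ c) :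
    WB g.symm (fun x => -φ (g.symm x)) c := by
  obtain ⟨K, hK⟩ := h
  refine ⟨K, fun n x y hxy => ?_⟩
  have h1 := hK n (g.symm^[n] x) (g.symm^[n] y) (fun i hi => by
    rw [fwd_back g hi, fwd_back g hi]
    have h2 := hxy (n - i) (by omega)
    have e : n - (n - i) = i := by omega
    rw [e] at h2
    linarith)
  rw [birk_symm, birk_symm]
  rw [show -birk g φ n (g.symm^[n] x) - -birk g φ n (g.symm^[n] y) =
    -(birk g φ n (g.symm^[n] x) - birk g φ n (g.symm^[n] y)) by ring, abs_neg]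
  exact h1

theorem geo_le (c : ℝ) {e : ℝ} (he : 0 < e) : ∃ k : ℕ, ∀ n ≥ k, c * (1 / 2 : ℝ) ^ n < e :=
  eventually_atTop.mp ((tendsto_order.mp (geo_tendsto c)).2 e he)

theorem birk_abs_le {g : X ≃ₜ X} {φ : X → ℝ} {B : ℝ} (hB : ∀ x, |φ x| ≤ B) (n : ℕ) (x : X) :
    |birk g φ n x| ≤ n * B := by
  unfold birk
  calc |∑ i ∈ Finset.range n, φ (g^[i] x)| ≤ ∑ i ∈ Finset.range n, |φ (g^[i] x)| :=
        Finset.abs_sum_le_sum_abs _ _
    _ ≤ ∑ _i ∈ Finset.range n, B := Finset.sum_le_sum fun i _ => hB _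
    _ = n * B := by rw [Finset.sum_const, Finset.card_range, nsmul_eq_mul]

/-- It suffices to compare Birkhoff sums after trimming finitely many terms. -/
theorem wb_of {g : X ≃ₜ X} {φ : X → ℝ} {c B : ℝ} (hc : 0 ≤ c) (hB : ∀ x, |φ x| ≤ B)
    {ε K : ℝ} (hε : 0 < ε)
    (h : ∀ (n : ℕ) (x y : X), (∀ i ≤ n, dist (g^[i] x) (g^[i] y) ≤
      min ε (c * (1 / 2) ^ i + c * (1 / 2) ^ (n - i))) → |birk g φ n x - birk g φ n y| ≤ K) :
    WB g φ c := by
  obtain ⟨k, hk⟩ := geo_le c (half_pos hε)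
  have hk' := (hk k le_rfl).le
  refine ⟨|K| + 4 * k * |B|, fun n x y hxy => ?_⟩
  have hB' : ∀ x, |φ x| ≤ |B| := fun x => (hB x).trans (le_abs_self B)
  have hpow : ∀ {i j : ℕ}, i ≤ j → (1 / 2 : ℝ) ^ j ≤ (1 / 2) ^ i := fun h =>
    pow_le_pow_of_le_one (by norm_num) (by norm_num) h
  rcases Nat.lt_or_ge n (2 * k) with hn | hn
  · have h1 := birk_abs_le (g := g) hB' n x
    have h2 := birk_abs_le (g := g) hB' n y
    have h3 := abs_sub (birk g φ n x) (birk g φ n y)
    have h4 : (n : ℝ) * |B| ≤ (2 * k : ℕ) * |B| :=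
      mul_le_mul_of_nonneg_right (by exact_mod_cast hn.le) (abs_nonneg B)
    push_cast at h4
    have := abs_nonneg K
    linarith
  · obtain ⟨m, rfl⟩ := Nat.exists_eq_add_of_le hn
    have e : 2 * k + m = k + (m + k) := by ring
    have hs : ∀ z, birk g φ (2 * k + m) z = birk g φ k z + (birk g φ m (g^[k] z) +
        birk g φ k (g^[m] (g^[k] z))) := by
      intro z
      rw [e, birk_add, birk_add]
    have hmid := h m (g^[k] x) (g^[k] y) (fun i hi => by
      rw [← Function.iterate_add_apply, ← Function.iterate_add_apply]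
      have h1 := hxy (i + k) (by omega)
      have e1 : 2 * k + m - (i + k) = k + (m - i) := by omega
      rw [e1] at h1
      have h2 : c * (1 / 2 : ℝ) ^ (i + k) ≤ c * (1 / 2) ^ i :=
        mul_le_mul_of_nonneg_left (hpow (by omega)) hc
      have h3 : c * (1 / 2 : ℝ) ^ (k + (m - i)) ≤ c * (1 / 2) ^ (m - i) :=
        mul_le_mul_of_nonneg_left (hpow (by omega)) hc
      have h4 : c * (1 / 2 : ℝ) ^ (i + k) ≤ c * (1 / 2) ^ k :=
        mul_le_mul_of_nonneg_left (hpow (by omega)) hc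
      have h5 : c * (1 / 2 : ℝ) ^ (k + (m - i)) ≤ c * (1 / 2) ^ k :=
        mul_le_mul_of_nonneg_left (hpow (by omega)) hc
      exact le_min (by linarith) (by linarith))
    have t1 := birk_abs_le (g := g) hB' k x
    have t2 := birk_abs_le (g := g) hB' k y
    have t3 := birk_abs_le (g := g) hB' k (g^[m] (g^[k] x))
    have t4 := birk_abs_le (g := g) hB' k (g^[m] (g^[k] y))
    have t5 := le_abs_self K
    rw [hs, hs]
    rw [abs_le] at *
    constructor
    · linarith [hmid.1, hmid.2, t1.1, t1.2, t2.1, t2.2, t3.1, t3.2, t4.1, t4.2]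
    · linarith [hmid.1, hmid.2, t1.1, t1.2, t2.1, t2.2, t3.1, t3.2, t4.1, t4.2]

/-- Locally Hölder functions. -/
theorem wb_of_holder {g : X ≃ₜ X} {φ : X → ℝ} {c B : ℝ} (hc : 0 ≤ c) (hB : ∀ x, |φ x| ≤ B)
    {ε α L : ℝ} (hε : 0 < ε) (hα : 0 < α) (hL : 0 ≤ L)
    (h : ∀ x y, dist x y ≤ ε → |φ x - φ y| ≤ L * dist x y ^ α) : WB g φ c := by
  set a : ℝ := min α 1 with ha
  have ha0 : 0 < a := lt_min hα one_pos
  have ha1 : a ≤ 1 := min_le_right _ _
  set r : ℝ := (1 / 2 : ℝ) ^ a with hr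
  have hr0 : 0 < r := Real.rpow_pos_of_pos (by norm_num) _
  have hr1 : r < 1 := Real.rpow_lt_one (by norm_num) (by norm_num) ha0
  refine wb_of hc hB (ε := min ε 1) (K := L * (c ^ a * ((1 - r)⁻¹ + (1 - r)⁻¹)))
    (lt_min hε one_pos) fun n x y hxy => ?_
  have hterm : ∀ i < n, |φ (g^[i] x) - φ (g^[i] y)| ≤ L * (c ^ a * (r ^ i + r ^ (n - i))) := by
    intro i hi
    have h1 := hxy i hi.le
    have h2 : dist (g^[i] x) (g^[i] y) ≤ ε :=
      h1.trans ((min_le_left _ _).trans (min_le_left _ _))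
    have h3 : dist (g^[i] x) (g^[i] y) ≤ 1 :=
      h1.trans ((min_le_left _ _).trans (min_le_right _ _))
    have h4 := h1.trans (min_le_right _ _)
    refine (h _ _ h2).trans (mul_le_mul_of_nonneg_left ?_ hL)
    have hd := dist_nonneg (x := g^[i] x) (y := g^[i] y)
    calc dist (g^[i] x) (g^[i] y) ^ α ≤ dist (g^[i] x) (g^[i] y) ^ a :=
          Real.rpow_le_rpow_of_exponent_ge_of_imp hd h3 (min_le_left _ _) (by
            intro _ h0; exact absurd h0 hα.ne')
      _ ≤ (c * (1 / 2) ^ i + c * (1 / 2) ^ (n - i)) ^ a := Real.rpow_le_rpow hd h4 ha0.le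
      _ ≤ (c * (1 / 2) ^ i) ^ a + (c * (1 / 2) ^ (n - i)) ^ a :=
          Real.rpow_add_le_add_rpow (by positivity) (by positivity) ha0.le ha1
      _ = c ^ a * (r ^ i + r ^ (n - i)) := by
          rw [Real.mul_rpow hc (by positivity), Real.mul_rpow hc (by positivity), hr,
            ← Real.rpow_natCast ((1 / 2 : ℝ) ^ a) i, ← Real.rpow_natCast ((1 / 2 : ℝ) ^ a) (n - i),
            ← Real.rpow_natCast (1 / 2 : ℝ) i, ← Real.rpow_natCast (1 / 2 : ℝ) (n - i),
            ← Real.rpow_mul (by norm_num), ← Real.rpow_mul (by norm_num),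
            ← Real.rpow_mul (by norm_num), ← Real.rpow_mul (by norm_num),
            mul_comm (i : ℝ) a, mul_comm ((n - i : ℕ) : ℝ) a]
          ring
  have hg1 : ∑ i ∈ Finset.range n, r ^ i ≤ (1 - r)⁻¹ := by
    rw [← tsum_geometric_of_lt_one hr0.le hr1]
    exact Summable.sum_le_tsum (f := fun i : ℕ => r ^ i) (Finset.range n)
      (fun i _ => by positivity) (summable_geometric_of_lt_one hr0.le hr1)
  have hg2 : ∑ i ∈ Finset.range n, r ^ (n - i) ≤ (1 - r)⁻¹ := by
    have h1 := Finset.sum_range_reflect (fun i : ℕ => r ^ (i + 1)) n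
    have h2 : ∑ i ∈ Finset.range n, r ^ (n - i) =
        ∑ j ∈ Finset.range n, r ^ (n - 1 - j + 1) := by
      apply Finset.sum_congr rfl
      intro i hi
      rw [Finset.mem_range] at hi
      congr 1
      omega
    rw [h2, h1]
    refine le_trans ?_ hg1
    apply Finset.sum_le_sum
    intro i _
    exact pow_le_pow_of_le_one hr0.le hr1.le (by omega)
  unfold birk
  rw [← Finset.sum_sub_distrib]
  calc |∑ i ∈ Finset.range n, (φ (g^[i] x) - φ (g^[i] y))|
      ≤ ∑ i ∈ Finset.range n, |φ (g^[i] x) - φ (g^[i] y)| := Finset.abs_sum_le_sum_abs _ _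
    _ ≤ ∑ i ∈ Finset.range n, L * (c ^ a * (r ^ i + r ^ (n - i))) :=
        Finset.sum_le_sum fun i hi => hterm i (Finset.mem_range.mp hi)
    _ = L * (c ^ a * (∑ i ∈ Finset.range n, r ^ i + ∑ i ∈ Finset.range n, r ^ (n - i))) := by
        rw [← Finset.sum_add_distrib, Finset.mul_sum, Finset.mul_sum]
    _ ≤ _ := by
        apply mul_le_mul_of_nonneg_left _ hL
        apply mul_le_mul_of_nonneg_left _ (by positivity)
        linarith

variable {E : Type*} [NormedAddCommGroup E] [NormedSpace ℝ E]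

/-- Birkhoff sums are bounded below on a minimal attractor, when they are nonnegative at the
periodic points. -/
theorem birk_bound' [CompactSpace X] (S : HypSys X E) {c : ℝ} (h : LP S.g c) {A : Set X}
    (hA : MinAtt S.g A) {φ : X → ℝ} {B : ℝ} (hφ : WB S.g φ c) (hB : ∀ x, |φ x| ≤ B)
    (hper : ∀ p ∈ A, ∀ q : ℕ, 1 ≤ q → S.g^[q] p = p → 0 ≤ birk S.g φ q p) :
    ∃ C, ∀ a ∈ A, ∀ y, SR S.g c y a → ∀ n, -C ≤ birk S.g φ n y := by
  obtain ⟨K, hcl⟩ := closing S h hA
  obtain ⟨K', hK'⟩ := hφ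
  have hc := h.c_pos
  have step : ∀ x ∈ A, ∀ n, -(K * |B| + K') ≤ birk S.g φ n x := by
    intro x hx n
    obtain ⟨m, hm, p, hpA, hnm, hp, hdist⟩ := hcl x hx n
    have h1 := hper p hpA (n + m) hnm hp
    rw [birk_add] at h1
    have h2 := hK' n x p hdist
    have h3 := birk_abs_le (g := S.g) (fun x => (hB x).trans (le_abs_self B)) m (S.g^[n] p)
    have h4 : (m : ℝ) * |B| ≤ K * |B| :=
      mul_le_mul_of_nonneg_right (by exact_mod_cast hm) (abs_nonneg B)
    have h5 := (abs_le.mp h2).1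
    have h6 := (abs_le.mp h3).2
    linarith
  refine ⟨K * |B| + K' + K', fun a ha y hy n => ?_⟩
  have h1 := step a ha n
  have h2 := h.cS _ _ hy
  have h3 := hK' n y a (fun i _ => (h2 i).trans (by
    have : 0 ≤ c * (1 / 2 : ℝ) ^ (n - i) := by positivity
    linarith))
  have h4 := (abs_le.mp h3).1
  linarith

variable [MeasurableSpace X] [BorelSpace X]

/-- A proper minimal attractor contains a periodic orbit with negative sum. -/
theorem exists_neg' [CompactSpace X] [ConnectedSpace X]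
    (S : HypSys X E) {c : ℝ} (h : LP S.g c) {A : Set X} (hA : MinAtt S.g A) (hne : A ≠ univ)
    {φ : X → ℝ} {B : ℝ} (hc : Continuous φ) (hφ : WB S.g φ c) (hB : ∀ x, |φ x| ≤ B)
    (μ : Measure X) [IsFiniteMeasure μ] [μ.IsOpenPosMeasure] (hμ : Jac S.g μ φ) :
    ∃ p ∈ A, ∃ q : ℕ, 1 ≤ q ∧ S.g^[q] p = p ∧ birk S.g φ q p < 0 := by
  by_contra hcon
  push Not at hcon
  obtain ⟨C, hC⟩ := birk_bound' S h hA hφ hB hcon
  apply hne
  apply att_univ_of_vol h hA.1 μ (ENNReal.ofReal (Real.exp (-C)))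
    (ENNReal.ofReal_pos.mpr (Real.exp_pos _)).ne'
  intro W hW hWA n
  refine hμ.lower hc n hW.measurableSet fun y hy => ?_
  obtain ⟨a, ha, hya⟩ := hWA y hy
  exact hC a ha y hya n

end Pool.Agent.V1186.PJ
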