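import Pool.Agent.V1186.PJ.B

/-!
# Periodic data of Birkhoff sums and transitivity, abstract main theorem
-/

set_option autoImplicit false
set_option linter.unusedSectionVars false

open Filter Topology Set Metric MeasureTheory
open scoped ENNReal

namespace Pool.Agent.V1186.PJ

open Pool.Agent.H789R2.AN Pool.Agent.H721R2 Pool.Agent.Y321.PJ Pool.Agent.Y330.G

variable {X : Type*} [MetricSpace X]

theorem birk_ith (f : X ≃ₜ X) (ψ : X → ℝ) (N n : ℕ) (x : X) :
    birk (iterHomeo f N) (birk f ψ N) n x = birk f ψ (N * n) x := by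
  induction n with
  | zero => simp [birk_zero]
  | succ n ih => rw [birk_succ', ih, Nat.mul_succ, birk_add, ith_iter]

theorem birk_per_mul {f : X ≃ₜ X} {ψ : X → ℝ} {q : ℕ} {p : X} (hp : f^[q] p = p) (m : ℕ) :
    birk f ψ (q * m) p = m * birk f ψ q p := birk_mul hp m

/-- The densities needed in the construction for a homeomorphism and its `N`-th power. -/
def Good (f : X ≃ₜ X) (ψ : X → ℝ) (N : ℕ) (c : ℝ) : Prop :=
  WB (iterHomeo f N) (birk f ψ N) c

theorem Good.symm {f : X ≃ₜ X} {ψ : X → ℝ} {N : ℕ} {c : ℝ} (h : Good f ψ N c) :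
    Good f.symm (fun x => -ψ (f.symm x)) N c := by
  have h1 : WB (iterHomeo f.symm N) (fun x => -birk f ψ N ((iterHomeo f N).symm x)) c :=
    WB.symm (g := iterHomeo f N) h
  have e : (fun x => -birk f ψ N ((iterHomeo f N).symm x)) =
      birk f.symm (fun x => -ψ (f.symm x)) N := by
    funext x
    rw [birk_symm]; rfl
  rw [e] at h1
  exact h1

theorem tr_symm {f : X ≃ₜ X} (h : TopTransitive (f.symm : X → X)) :
    TopTransitive (f : X → X) := by
  intro U V hU hUn hV hVn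
  obtain ⟨n, y, ⟨v, hv, rfl⟩, hy⟩ := h V U hV hVn hU hUn
  exact ⟨n, v, ⟨_, hy, iterR f n v⟩, hv⟩

theorem bdd_cont [CompactSpace X] {φ : X → ℝ} (h : Continuous φ) : ∃ B, ∀ x, |φ x| ≤ B := by
  obtain ⟨B, hB⟩ := (isCompact_univ (X := X)).exists_bound_of_continuousOn h.continuousOn
  exact ⟨B, fun x => hB x trivial⟩

variable {E : Type*} [NormedAddCommGroup E] [NormedSpace ℝ E]

variable [MeasurableSpace X] [BorelSpace X]

theorem jac_ith {f : X ≃ₜ X} {μ : Measure X} {ψ : X → ℝ} (hψ : Continuous ψ) (h : Jac f μ ψ)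
    (N : ℕ) : Jac (iterHomeo f N) μ (birk f ψ N) := fun k hk => h.iter hψ N k hk

/-- Nonnegative sums over the periodic orbits. -/
theorem nonneg_case [CompactSpace X] [ConnectedSpace X] (S : HypSys X E) {f : X ≃ₜ X} {N : ℕ}
    (hN : 1 ≤ N) (hS : S.g = iterHomeo f N) {c : ℝ} (h : LP S.g c) {ψ : X → ℝ}
    (hψ : Continuous ψ) (hg : Good f ψ N c) (μ : Measure X) [IsFiniteMeasure μ]
    [μ.IsOpenPosMeasure] (hμ : Jac f μ ψ)
    (hper : ∀ (n : ℕ) (p : X), 1 ≤ n → f^[n] p = p → 0 ≤ birk f ψ n p) :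
    TopTransitive (f : X → X) ∧ ∃ C, ∀ n x, -C ≤ birk f ψ n x := by
  obtain ⟨B, hB⟩ := bdd_cont (cont_birk (f := f) hψ N)
  obtain ⟨B₁, hB₁⟩ := bdd_cont hψ
  have hg' : WB S.g (birk f ψ N) c := by rw [hS]; exact hg
  have hμ' : Jac S.g μ (birk f ψ N) := by rw [hS]; exact jac_ith hψ hμ N
  have huniv : IsAtt S.g (univ : Set X) :=
    ⟨isClosed_univ, univ_nonempty, fun x => by simp, fun _ _ _ _ => mem_univ _⟩
  obtain ⟨A, -, hA⟩ := exists_minAtt huniv
  have hAu : A = univ := by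
    by_contra hne
    obtain ⟨p, -, q, hq, hp, hneg⟩ := exists_neg' S h hA hne (cont_birk hψ N) hg' hB μ hμ'
    rw [hS, birk_ith] at hneg
    rw [hS, ith_iter] at hp
    exact absurd (hper (N * q) p (Nat.mul_pos hN hq) hp) (not_le.mpr hneg)
  subst hAu
  refine ⟨?_, ?_⟩
  · intro U V hU hUn hV hVn
    obtain ⟨n, hn⟩ := trans_of_min_univ h hA U V hU hUn hV hVn
    refine ⟨N * n, ?_⟩
    have e : S.g^[n] = f^[N * n] := by
      funext x
      rw [hS, ith_iter]
    rwa [e] at hn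
  · obtain ⟨C, hC⟩ := birk_bound' S h hA hg' hB (fun p _ q hq hp => by
      rw [hS, birk_ith]
      rw [hS, ith_iter] at hp
      exact hper (N * q) p (Nat.mul_pos hN hq) hp)
    refine ⟨C + N * |B₁|, fun n x => ?_⟩
    have h1 := hC x trivial x (fun k => by rw [dist_self]; exact h.c_pos.le) (n / N)
    rw [hS, birk_ith] at h1
    have e : n = N * (n / N) + n % N := (Nat.div_add_mod n N).symm
    have h2 := birk_abs_le (g := f) (fun x => (hB₁ x).trans (le_abs_self B₁)) (n % N)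
      (f^[N * (n / N)] x)
    have h3 : ((n % N : ℕ) : ℝ) * |B₁| ≤ N * |B₁| :=
      mul_le_mul_of_nonneg_right (by exact_mod_cast (Nat.mod_lt n hN).le) (abs_nonneg _)
    have h4 := (abs_le.mp h2).1
    have h5 : birk f ψ n x = birk f ψ (N * (n / N)) x + birk f ψ (n % N) (f^[N * (n / N)] x) := by
      conv_lhs => rw [e]
      rw [birk_add]
    linarith

theorem symm_sys (S : HypSys X E) {f : X ≃ₜ X} {N : ℕ} (hS : S.g = iterHomeo f N) :
    S.symm.g = iterHomeo f.symm N := by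
  show S.g.symm = _
  rw [hS, ith_symm]

/-- Nonpositive sums over the periodic orbits. -/
theorem nonpos_case [CompactSpace X] [ConnectedSpace X] (S : HypSys X E) {f : X ≃ₜ X} {N : ℕ}
    (hN : 1 ≤ N) (hS : S.g = iterHomeo f N) {c : ℝ} (h : LP S.g c) {ψ : X → ℝ}
    (hψ : Continuous ψ) (hg : Good f ψ N c) (μ : Measure X) [IsFiniteMeasure μ]
    [μ.IsOpenPosMeasure] (hμ : Jac f μ ψ)
    (hper : ∀ (n : ℕ) (p : X), 1 ≤ n → f^[n] p = p → birk f ψ n p ≤ 0) :
    TopTransitive (f : X → X) ∧ ∃ C, ∀ n x, birk f ψ n x ≤ C := by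
  have hψ' : Continuous fun x => -ψ (f.symm x) := (hψ.comp f.symm.continuous).neg
  have h' : LP S.symm.g c := h.symm
  obtain ⟨h1, C, hC⟩ := nonneg_case S.symm (f := f.symm) hN (symm_sys S hS) h' hψ' hg.symm μ
    (hμ.symm hψ) (fun n p hn hp => by
      rw [birk_symm, hp]
      have h2 : f^[n] p = p := by
        have := iterR f n p
        rwa [hp] at this
      have := hper n p hn h2
      linarith)
  refine ⟨tr_symm h1, C, fun n x => ?_⟩
  have h2 := hC n (f^[n] x)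
  rw [birk_symm, iterL] at h2
  linarith

/-- Abstract form of the main theorem. -/
theorem abs_tfae [CompactSpace X] [ConnectedSpace X] (S : HypSys X E) {f : X ≃ₜ X} {N : ℕ}
    (hN : 1 ≤ N) (hS : S.g = iterHomeo f N) {c : ℝ} (h : LP S.g c) {ψ : X → ℝ}
    (hψ : Continuous ψ) (hg : Good f ψ N c) (μ : Measure X) [IsFiniteMeasure μ]
    [μ.IsOpenPosMeasure] (hμ : Jac f μ ψ) :
    List.TFAE [∀ (n : ℕ) (p : X), 1 ≤ n → f^[n] p = p → birk f ψ n p ≤ 0,
      ∀ (n : ℕ) (p : X), 1 ≤ n → f^[n] p = p → 0 ≤ birk f ψ n p,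
      ∀ (n : ℕ) (p : X), 1 ≤ n → f^[n] p = p → birk f ψ n p = 0,
      ∃ C : ℝ, ∀ n x, |birk f ψ n x| ≤ C,
      ∃ (ν : Measure X) (C : ℝ), ν.map f = ν ∧ μ ≤ ENNReal.ofReal C • ν ∧
        ν ≤ ENNReal.ofReal C • μ] ∧
    ((∀ (n : ℕ) (p : X), 1 ≤ n → f^[n] p = p → birk f ψ n p = 0) →
      TopTransitive (f : X → X)) := by
  have b0 : (∃ C : ℝ, ∀ n x, |birk f ψ n x| ≤ C) →
      ∀ (n : ℕ) (p : X), 1 ≤ n → f^[n] p = p → birk f ψ n p = 0 := by
    rintro ⟨C, hC⟩ n p hn hp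
    by_contra hne
    have h1 : ∀ m : ℕ, (m : ℝ) * |birk f ψ n p| ≤ C := by
      intro m
      have h2 := hC (n * m) p
      rw [birk_per_mul hp m, abs_mul, Nat.abs_cast] at h2
      exact h2
    obtain ⟨m, hm⟩ := exists_nat_gt (C / |birk f ψ n p|)
    have h3 : 0 < |birk f ψ n p| := abs_pos.mpr hne
    rw [div_lt_iff₀ h3] at hm
    exact absurd (h1 m) (not_le.mpr hm)
  have up : (∃ C : ℝ, ∀ n x, birk f ψ n x ≤ C) → ∃ C : ℝ, ∀ n x, |birk f ψ n x| ≤ C := by
    rintro ⟨C, hC⟩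
    exact ⟨C, fun n x => abs_le.mpr ⟨lower_of_upper (μ := μ) hψ hμ hC n x, hC n x⟩⟩
  have lo : (∃ C : ℝ, ∀ n x, -C ≤ birk f ψ n x) → ∃ C : ℝ, ∀ n x, |birk f ψ n x| ≤ C := by
    rintro ⟨C, hC⟩
    exact ⟨C, fun n x => abs_le.mpr ⟨hC n x, upper_of_lower (μ := μ) hψ hμ hC n x⟩⟩
  refine ⟨?_, fun h0 => (nonpos_case S hN hS h hψ hg μ hμ fun n p hn hp => (h0 n p hn hp).le).1⟩
  tfae_have 1 → 4 := fun h1 => up (nonpos_case S hN hS h hψ hg μ hμ h1).2
  tfae_have 2 → 4 := fun h1 => lo (nonneg_case S hN hS h hψ hg μ hμ h1).2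
  tfae_have 3 → 1 := fun h1 n p hn hp => (h1 n p hn hp).le
  tfae_have 3 → 2 := fun h1 n p hn hp => (h1 n p hn hp).ge
  tfae_have 4 → 3 := b0
  tfae_have 4 → 5 := by
    rintro ⟨C, hC⟩
    obtain ⟨ν, h1, h2, h3⟩ := exists_inv (μ := μ) hψ hμ (C := C)
      fun n x => (le_abs_self _).trans (hC n x)
    have hC0 : 0 ≤ C := (abs_nonneg _).trans (hC 0 (Classical.arbitrary X))
    refine ⟨ν, Real.exp C, h1, h2.trans ?_, h3⟩
    have h4 : (1 : ℝ≥0∞) ≤ ENNReal.ofReal (Real.exp C) := by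
      rw [ENNReal.one_le_ofReal, Real.one_le_exp_iff]; exact hC0
    refine Measure.le_iff.mpr fun B _ => ?_
    rw [Measure.smul_apply, smul_eq_mul]
    calc ν B = 1 * ν B := (one_mul _).symm
      _ ≤ _ := by gcongr
  tfae_have 5 → 4 := by
    rintro ⟨ν, C, h1, h2, h3⟩
    have hC' : ENNReal.ofReal C ≤ ENNReal.ofReal |C| := ENNReal.ofReal_le_ofReal (le_abs_self C)
    have t1 : μ ≤ ENNReal.ofReal |C| • ν := by
      refine Measure.le_iff.mpr fun B _ => (h2 B).trans ?_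
      rw [Measure.smul_apply, Measure.smul_apply, smul_eq_mul, smul_eq_mul]
      gcongr
    have t2 : ν ≤ ENNReal.ofReal |C| • μ := by
      refine Measure.le_iff.mpr fun B _ => (h3 B).trans ?_
      rw [Measure.smul_apply, Measure.smul_apply, smul_eq_mul, smul_eq_mul]
      gcongr
    exact up ⟨_, bounded_of_inv hψ hμ h1 (abs_nonneg C) (abs_nonneg C) t1 t2⟩
  tfae_finish

/-- Non-transitive systems: heteroclinic connections between periodic orbits with sums of
opposite sign. -/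
theorem abs_het [CompactSpace X] [ConnectedSpace X] (S : HypSys X E) {f : X ≃ₜ X} {N : ℕ}
    (hN : 1 ≤ N) (hS : S.g = iterHomeo f N) {c : ℝ} (h : LP S.g c) {ψ : X → ℝ}
    (hψ : Continuous ψ) (hg : Good f ψ N c) (μ : Measure X) [IsFiniteMeasure μ]
    [μ.IsOpenPosMeasure] (hμ : Jac f μ ψ) (hnt : ¬ TopTransitive (f : X → X)) :
    ∃ (n : ℕ) (P Q : Set X), 1 ≤ n ∧ P.Finite ∧ Q.Finite ∧
      (∀ p ∈ P, f^[n] p = p ∧ birk f ψ n p < 0) ∧
      (∀ q ∈ Q, f^[n] q = q ∧ 0 < birk f ψ n q) ∧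
      Dense {x : X | (∃ p ∈ P, Tendsto (fun k : ℕ => f^[n * k] x) atTop (𝓝 p)) ∧
        ∃ q ∈ Q, Tendsto (fun k : ℕ => f.symm^[n * k] x) atTop (𝓝 q)} := by
  have hψ' : Continuous fun x => -ψ (f.symm x) := (hψ.comp f.symm.continuous).neg
  obtain ⟨B, hB⟩ := bdd_cont (cont_birk (f := f) hψ N)
  obtain ⟨B', hB'⟩ := bdd_cont (cont_birk (f := f.symm) hψ' N)
  have hg' : WB S.g (birk f ψ N) c := by rw [hS]; exact hg
  have hμ' : Jac S.g μ (birk f ψ N) := by rw [hS]; exact jac_ith hψ hμ N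
  have hSs := symm_sys S hS
  have hgs : WB S.symm.g (birk f.symm (fun x => -ψ (f.symm x)) N) c := by rw [hSs]; exact hg.symm
  have hμs : Jac S.symm.g μ (birk f.symm (fun x => -ψ (f.symm x)) N) := by
    rw [hSs]; exact jac_ith hψ' (hμ.symm hψ) N
  have h' : LP S.symm.g c := h.symm
  have hitS : ∀ n, S.g^[n] = f^[N * n] := fun n => by
    funext x
    rw [hS, ith_iter]
  have hitS' : ∀ n, S.g.symm^[n] = f.symm^[N * n] := fun n => by
    funext x
    rw [hS, ith_symm_iter]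
  have hAne : ∀ A, MinAtt S.g A → A ≠ univ := by
    rintro A hA rfl
    apply hnt
    intro U V hU hUn hV hVn
    obtain ⟨n, hn⟩ := trans_of_min_univ h hA U V hU hUn hV hVn
    exact ⟨N * n, by rwa [hitS] at hn⟩
  have hRne : ∀ R, MinAtt S.g.symm R → R ≠ univ := by
    rintro R hR rfl
    apply hnt
    apply tr_symm
    intro U V hU hUn hV hVn
    obtain ⟨n, hn⟩ := trans_of_min_univ h.symm hR U V hU hUn hV hVn
    exact ⟨N * n, by rwa [hitS'] at hn⟩
  have hchA : ∀ A : Set X, ∃ (p : X) (n : ℕ), 1 ≤ n ∧ (MinAtt S.g A → p ∈ A ∧ f^[N * n] p = p ∧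
      birk f ψ (N * n) p < 0) := by
    intro A
    by_cases hA : MinAtt S.g A
    · obtain ⟨p, hp, n, hn, h1, h2⟩ := exists_neg' S h hA (hAne A hA) (cont_birk hψ N) hg' hB μ hμ'
      rw [hitS] at h1
      rw [hS, birk_ith] at h2
      exact ⟨p, n, hn, fun _ => ⟨hp, h1, h2⟩⟩
    · exact ⟨Classical.arbitrary X, 1, le_rfl, fun h => absurd h hA⟩
  have hchR : ∀ R : Set X, ∃ (p : X) (n : ℕ), 1 ≤ n ∧ (MinAtt S.g.symm R → p ∈ R ∧
      f^[N * n] p = p ∧ 0 < birk f ψ (N * n) p) := by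
    intro R
    by_cases hR : MinAtt S.g.symm R
    · obtain ⟨p, hp, n, hn, h1, h2⟩ := exists_neg' S.symm h' hR (hRne R hR)
        (cont_birk hψ' N) hgs hB' μ hμs
      have h1' : S.g.symm^[n] p = p := h1
      rw [hitS'] at h1'
      rw [hSs, birk_ith, birk_symm, h1'] at h2
      have h3 : f^[N * n] p = p := by
        have := iterR f (N * n) p
        rwa [h1'] at this
      exact ⟨p, n, hn, fun _ => ⟨hp, h3, by linarith⟩⟩
    · exact ⟨Classical.arbitrary X, 1, le_rfl, fun h => absurd h hR⟩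
  choose p n hn hp using hchA
  choose r m hm hr using hchR
  have hFA := finite_minAtt h
  have hFR := finite_minAtt h.symm
  set T := (∏ A ∈ hFA.toFinset, n A) * ∏ R ∈ hFR.toFinset, m R with hT
  have hT1 : 1 ≤ T := Nat.mul_pos (Finset.prod_pos fun A _ => hn A)
    (Finset.prod_pos fun R _ => hm R)
  have hnT : ∀ A, MinAtt S.g A → N * n A ∣ N * T := fun A hA =>
    Nat.mul_dvd_mul_left N (Dvd.dvd.mul_right
      (Finset.dvd_prod_of_mem n (hFA.mem_toFinset.mpr hA)) _)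
  have hmT : ∀ R, MinAtt S.g.symm R → N * m R ∣ N * T := fun R hR =>
    Nat.mul_dvd_mul_left N (Dvd.dvd.mul_left
      (Finset.dvd_prod_of_mem m (hFR.mem_toFinset.mpr hR)) _)
  have hNT : 1 ≤ N * T := Nat.mul_pos hN hT1
  have hnN : ∀ A, 1 ≤ N * n A := fun A => Nat.mul_pos hN (hn A)
  have hmN : ∀ R, 1 ≤ N * m R := fun R => Nat.mul_pos hN (hm R)
  -- full orbits of the chosen periodic points
  have hfix : ∀ {q : ℕ} {z : X}, f^[q] z = z → ∀ k : ℕ, f^[q] (f.symm^[k] z) = f.symm^[k] z :=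
    fun hz k => per_back hz k
  have hfix' : ∀ {q : ℕ} {z : X}, f^[q] z = z → ∀ k : ℕ, f^[q] (f^[k] z) = f^[k] z :=
    fun hz k => per_iter hz k
  have hfin : ∀ {q : ℕ} {z : X}, 1 ≤ q → f^[q] z = z → (range fun k : ℕ => f^[k] z).Finite := by
    intro q z hq hz
    have hz' : f.symm^[q] z = z := by
      have := iterL f q z
      rwa [hz] at this
    exact finite_back (g := f.symm) hq hz'
  refine ⟨N * T, ⋃ A ∈ {A : Set X | MinAtt S.g A}, range fun k : ℕ => f.symm^[k] (p A),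
    ⋃ R ∈ {R : Set X | MinAtt S.g.symm R}, range fun k : ℕ => f^[k] (r R), hNT, ?_, ?_, ?_, ?_,
    ?_⟩
  · exact hFA.biUnion fun A hA => finite_back (hnN A) (hp A hA).2.1
  · exact hFR.biUnion fun R hR => hfin (hmN R) (hr R hR).2.1
  · intro y hy
    obtain ⟨A, hA, k, rfl⟩ := mem_iUnion₂.mp hy
    have h1 := (hp A hA).2.1
    have h2 := (hp A hA).2.2
    refine ⟨fixed_of_dvd (hfix h1 k) (hnT A hA),
      birk_neg_of_dvd hNT (hfix h1 k) (hnT A hA) ?_⟩
    show birk f ψ (N * n A) (f.symm^[k] (p A)) < 0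
    rw [birk_back h1]; exact h2
  · intro y hy
    obtain ⟨R, hR, k, rfl⟩ := mem_iUnion₂.mp hy
    have h1 := (hr R hR).2.1
    have h2 := (hr R hR).2.2
    refine ⟨fixed_of_dvd (hfix' h1 k) (hmT R hR), ?_⟩
    have h3 : birk f ψ (N * m R) (f^[k] (r R)) = birk f ψ (N * m R) (r R) := birk_iter h1 k
    obtain ⟨j, hj⟩ := hmT R hR
    show 0 < birk f ψ (N * T) (f^[k] (r R))
    rw [hj, birk_per_mul (hfix' h1 k), h3]
    have hj0 : 0 < j := by
      rcases Nat.eq_zero_or_pos j with h0 | h0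
      · rw [h0, mul_zero] at hj
        omega
      · exact h0
    have : (0 : ℝ) < j := by exact_mod_cast hj0
    positivity
  · rw [dense_iff_inter_open]
    intro V hV hVn
    obtain ⟨A, R, hA, hR, hne⟩ := exists_connection h hV hVn
    obtain ⟨j, k, x, hxV, hx1, hx2⟩ := exists_heteroclinic h hA hR hV hne (hp A hA).1 (hr R hR).1
    rw [hitS'] at hx1
    rw [hitS] at hx2
    refine ⟨x, hxV, ⟨f.symm^[N * k] (p A), mem_biUnion (by exact hA) ⟨N * k, rfl⟩, ?_⟩,
      ⟨f^[N * j] (r R), mem_biUnion (by exact hR) ⟨N * j, rfl⟩, ?_⟩⟩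
    · have h0 := fixed_of_dvd (hfix (hp A hA).2.1 (N * k)) (hnT A hA)
      have h1 : Tendsto (fun i : ℕ => dist (S.g^[T * i] (f.symm^[N * k] (p A))) (S.g^[T * i] x))
          atTop (𝓝 0) := hx1.comp (tendsto_id.const_mul_atTop' (by omega : 0 < T))
      have h2 : ∀ i, S.g^[T * i] (f.symm^[N * k] (p A)) = f.symm^[N * k] (p A) := fun i => by
        rw [hitS, ← mul_assoc, Function.iterate_mul]
        exact Function.iterate_fixed h0 i
      have h3 : ∀ i, S.g^[T * i] x = f^[N * T * i] x := fun i => by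
        rw [hitS, ← mul_assoc]
      simp only [h2, h3] at h1
      rw [tendsto_iff_dist_tendsto_zero]
      simpa only [dist_comm] using h1
    · have h0 := fixed_of_dvd (hfix' (hr R hR).2.1 (N * j)) (hmT R hR)
      have h0' : f.symm^[N * T] (f^[N * j] (r R)) = f^[N * j] (r R) := by
        have := iterL f (N * T) (f^[N * j] (r R))
        rwa [h0] at this
      have h1 : Tendsto (fun i : ℕ => dist (S.g.symm^[T * i] (f^[N * j] (r R)))
          (S.g.symm^[T * i] x)) atTop (𝓝 0) :=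
        hx2.comp (tendsto_id.const_mul_atTop' (by omega : 0 < T))
      have h2 : ∀ i, S.g.symm^[T * i] (f^[N * j] (r R)) = f^[N * j] (r R) := fun i => by
        rw [hitS', ← mul_assoc, Function.iterate_mul]
        exact Function.iterate_fixed h0' i
      have h3 : ∀ i, S.g.symm^[T * i] x = f.symm^[N * T * i] x := fun i => by
        rw [hitS', ← mul_assoc]
      simp only [h2, h3] at h1
      rw [tendsto_iff_dist_tendsto_zero]
      simpa only [dist_comm] using h1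

end Pool.Agent.V1186.PJ
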