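import Pool.Agent.V1186.PJ.C
import Pool.Agent.TH289.Def

/-!
# The periodic orbits of one attractor decide
-/

set_option autoImplicit false
set_option linter.unusedSectionVars false

open Filter Topology Set Metric MeasureTheory
open scoped ENNReal

namespace Pool.Agent.V1186.PJ

open Pool.Agent.H789R2.AN Pool.Agent.H721R2 Pool.Agent.Y321.PJ Pool.Agent.Y330.G
open Pool.Agent.TH289

variable {X : Type*} [MetricSpace X]

theorem asym_ws [CompactSpace X] (f : X ≃ₜ X) (x y : X) : Asym f x y ↔ WS f x y := by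
  unfold Asym WS
  rw [nhdsSet_diagonal_eq_uniformity, tendsto_uniformity_iff_dist_tendsto_zero]

theorem ws_of_iter [CompactSpace X] (f : X ≃ₜ X) {N : ℕ} (hN : 1 ≤ N) {x y : X}
    (h : WS (iterHomeo f N) x y) : WS f x y := by
  refine tendsto_order.mpr ⟨fun a ha => Eventually.of_forall fun n =>
    lt_of_lt_of_le ha dist_nonneg, fun a ha => ?_⟩
  obtain ⟨η, hη, h1⟩ := uc f f.continuous N ha
  obtain ⟨m, hm⟩ := h.eventually_lt hη
  filter_upwards [eventually_ge_atTop (N * m)] with n hn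
  have hnn : n = n % N + N * (n / N) := (Nat.mod_add_div n N).symm
  have h2 : m ≤ n / N := by
    rw [Nat.le_div_iff_mul_le (by omega)]
    rwa [Nat.mul_comm]
  have h3 := hm (n / N) h2
  rw [ith_iter, ith_iter] at h3
  have h4 := h1 (n % N) (Nat.mod_lt _ (by omega)).le _ _ h3
  rw [← Function.iterate_add_apply, ← Function.iterate_add_apply, ← hnn] at h4
  exact h4

theorem att_of_sat [CompactSpace X] {f : X ≃ₜ X} {N : ℕ} (hN : 1 ≤ N) {A : Set X}
    (hA : UnstSat f A) : IsAtt (iterHomeo f N) A where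
  closed := hA.closed
  nonempty := hA.nonempty
  inv := fun x => inv_iter hA.inv N x
  sat := fun x hx y hxy => hA.sat x hx y (by
    rw [asym_ws]
    apply ws_of_iter f.symm hN
    rwa [← ith_symm])

variable {E : Type*} [NormedAddCommGroup E] [NormedSpace ℝ E]

variable [MeasurableSpace X] [BorelSpace X]

/-- Nonnegative sums over the periodic orbits of one attractor. -/
theorem att_case [CompactSpace X] [ConnectedSpace X] (S : HypSys X E) {f : X ≃ₜ X} {N : ℕ}
    (hN : 1 ≤ N) (hS : S.g = iterHomeo f N) {c : ℝ} (h : LP S.g c) {ψ : X → ℝ}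
    (hψ : Continuous ψ) (hg : Good f ψ N c) (μ : Measure X) [IsFiniteMeasure μ]
    [μ.IsOpenPosMeasure] (hμ : Jac f μ ψ) {A : Set X} (hA : UnstSat f A)
    (hper : ∀ (n : ℕ) (p : X), 1 ≤ n → p ∈ A → f^[n] p = p → 0 ≤ birk f ψ n p) :
    A = univ ∧ TopTransitive (f : X → X) := by
  obtain ⟨B, hB⟩ := bdd_cont (cont_birk (f := f) hψ N)
  have hg' : WB S.g (birk f ψ N) c := by rw [hS]; exact hg
  have hμ' : Jac S.g μ (birk f ψ N) := by rw [hS]; exact jac_ith hψ hμ N
  have hA' : IsAtt S.g A := by rw [hS]; exact att_of_sat hN hA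
  obtain ⟨A₁, hA₁A, hA₁⟩ := exists_minAtt hA'
  have hAu : A₁ = univ := by
    by_contra hne
    obtain ⟨p, hpA, q, hq, hp, hneg⟩ := exists_neg' S h hA₁ hne (cont_birk hψ N) hg' hB μ hμ'
    rw [hS, birk_ith] at hneg
    rw [hS, ith_iter] at hp
    exact absurd (hper (N * q) p (Nat.mul_pos hN hq) (hA₁A hpA) hp) (not_le.mpr hneg)
  subst hAu
  refine ⟨univ_subset_iff.mp hA₁A, ?_⟩
  intro U V hU hUn hV hVn
  obtain ⟨n, hn⟩ := trans_of_min_univ h hA₁ U V hU hUn hV hVn
  refine ⟨N * n, ?_⟩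
  have e : S.g^[n] = f^[N * n] := by
    funext x
    rw [hS, ith_iter]
  rwa [e] at hn

/-- Nonpositive sums over the periodic orbits of one repeller. -/
theorem rep_case [CompactSpace X] [ConnectedSpace X] (S : HypSys X E) {f : X ≃ₜ X} {N : ℕ}
    (hN : 1 ≤ N) (hS : S.g = iterHomeo f N) {c : ℝ} (h : LP S.g c) {ψ : X → ℝ}
    (hψ : Continuous ψ) (hg : Good f ψ N c) (μ : Measure X) [IsFiniteMeasure μ]
    [μ.IsOpenPosMeasure] (hμ : Jac f μ ψ) {A : Set X} (hA : UnstSat f.symm A)
    (hper : ∀ (n : ℕ) (p : X), 1 ≤ n → p ∈ A → f^[n] p = p → birk f ψ n p ≤ 0) :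
    A = univ ∧ TopTransitive (f : X → X) := by
  have hψ' : Continuous fun x => -ψ (f.symm x) := (hψ.comp f.symm.continuous).neg
  have h' : LP S.symm.g c := h.symm
  obtain ⟨h1, h2⟩ := att_case S.symm (f := f.symm) hN (symm_sys S hS) h' hψ' hg.symm μ
    (hμ.symm hψ) hA (fun n p hn hpA hp => by
      rw [birk_symm, hp]
      have h2 : f^[n] p = p := by
        have := iterR f n p
        rwa [hp] at this
      have := hper n p hn hpA h2
      linarith)
  exact ⟨h1, tr_symm h2⟩

end Pool.Agent.V1186.PJ
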