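import Pool.Agent.Y321.PJ.Main

/-!
# The Riemannian volume of an immersion
-/

set_option autoImplicit false
set_option linter.unusedSectionVars false

open scoped Manifold ContDiff Topology ENNReal
open Set Filter MeasureTheory

namespace Pool.Agent.V1186.PJ

open Pool.Agent.H721R2 Pool.Agent.Y321.PJ

variable {E : Type*} [NormedAddCommGroup E] [NormedSpace ℝ E] [FiniteDimensional ℝ E]
  {M : Type*} [TopologicalSpace M] [ChartedSpace E M] [IsManifold 𝓘(ℝ, E) ∞ M]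
  {F : Type*} [NormedAddCommGroup F] [InnerProductSpace ℝ F]

/-- the change of densities -/
theorem cv_local (e : M → F) (he : ContMDiff 𝓘(ℝ, E) 𝓘(ℝ, F) 1 e)
    (hinj : ∀ x, Function.Injective (dm E e x)) (G G' : M → M)
    (hG : ContMDiff 𝓘(ℝ, E) 𝓘(ℝ, E) 1 G)
    (hG' : ContMDiff 𝓘(ℝ, E) 𝓘(ℝ, E) 1 G') (h : ∀ x, G' (G x) = x) (x₀ x₁ x : M)
    (hx : x ∈ (extChartAt 𝓘(ℝ, E) x₀).source) (hGx : G x ∈ (extChartAt 𝓘(ℝ, E) x₁).source) :
    ContDiffAt ℝ 1 (extChartAt 𝓘(ℝ, E) x₁ ∘ G ∘ (extChartAt 𝓘(ℝ, E) x₀).symm)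
      (extChartAt 𝓘(ℝ, E) x₀ x) ∧
    Real.exp (jac E e G x) * Real.exp (lh e x₀ (extChartAt 𝓘(ℝ, E) x₀ x)) =
      |(fderiv ℝ (extChartAt 𝓘(ℝ, E) x₁ ∘ G ∘ (extChartAt 𝓘(ℝ, E) x₀).symm)
        (extChartAt 𝓘(ℝ, E) x₀ x)).det| *
        Real.exp (lh e x₁ (extChartAt 𝓘(ℝ, E) x₁ (G x))) := by
  set κ₀ := extChartAt 𝓘(ℝ, E) x₀ with hκ₀
  set κ₁ := extChartAt 𝓘(ℝ, E) x₁ with hκ₁
  set Φ : E → E := κ₁ ∘ G ∘ κ₀.symm with hΦ
  have h1 : κ₀ x ∈ κ₀.target := κ₀.map_source hx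
  have hsx : κ₀.symm (κ₀ x) = x := κ₀.left_inv hx
  have hdiff : ContDiffAt ℝ 1 Φ (κ₀ x) := by
    rw [← contMDiffAt_iff_contDiffAt]
    have h3 : ContMDiffAt 𝓘(ℝ, E) 𝓘(ℝ, E) 1 κ₀.symm (κ₀ x) :=
      (contMDiffOn_extChartAt_symm (n := 1) x₀).contMDiffAt
        ((isOpen_extChartAt_target x₀).mem_nhds h1)
    have h4 : ContMDiffAt 𝓘(ℝ, E) 𝓘(ℝ, E) 1 κ₁ (G (κ₀.symm (κ₀ x))) := by
      rw [hsx]
      apply contMDiffAt_extChartAt'
      rwa [hκ₁, extChartAt_source] at hGx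
    exact ContMDiffAt.comp _ h4 (ContMDiffAt.comp _ hG.contMDiffAt h3)
  refine ⟨hdiff, ?_⟩
  have hev : hatMap (e ∘ G) x₀ =ᶠ[𝓝 (κ₀ x)] hatMap e x₁ ∘ Φ := by
    have h5 : ContinuousAt (fun y => G (κ₀.symm y)) (κ₀ x) := by
      apply ContinuousAt.comp (g := G)
      · exact hG.continuous.continuousAt
      · exact (continuousOn_extChartAt_symm x₀).continuousAt
          ((isOpen_extChartAt_target x₀).mem_nhds h1)
    have h6 : ∀ᶠ y in 𝓝 (κ₀ x), G (κ₀.symm y) ∈ κ₁.source := by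
      apply h5.preimage_mem_nhds
      rw [hsx]
      exact (isOpen_extChartAt_source x₁).mem_nhds hGx
    filter_upwards [h6] with y' h3
    show e (G (κ₀.symm y')) = e (κ₁.symm (κ₁ (G (κ₀.symm y'))))
    rw [κ₁.left_inv h3]
  have hΦy : Φ (κ₀ x) = κ₁ (G x) := by
    show κ₁ (G (κ₀.symm (κ₀ x))) = _
    rw [hsx]
  have h4 : DifferentiableAt ℝ (hatMap e x₁) (Φ (κ₀ x)) := by
    rw [hΦy]
    exact (hatMap_contDiffAt e he x₁ _ (κ₁.map_source hGx)).differentiableAt (by norm_num)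
  have h5 : fderiv ℝ (hatMap (e ∘ G) x₀) (κ₀ x) =
      (fderiv ℝ (hatMap e x₁) (Φ (κ₀ x))).comp (fderiv ℝ Φ (κ₀ x)) := by
    rw [hev.fderiv_eq]
    exact fderiv_comp _ h4 (hdiff.differentiableAt (by norm_num))
  have h6 := gr_hat_pos (e ∘ G) (he.comp hG) x₀ x hx (inj_comp e he hinj G G' hG hG' h _)
  have h7 := jac_local e he hinj G G' hG hG' h x₀ x hx
  rw [← hκ₀] at h6 h7
  have h9 : lh (e ∘ G) x₀ (κ₀ x) = Real.log |(fderiv ℝ Φ (κ₀ x)).det| + lh e x₁ (Φ (κ₀ x)) := by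
    rw [h5, gr_comp] at h6
    rw [lh, lh, h5, gr_comp]
    exact half_log h6
  have h11 : (fderiv ℝ Φ (κ₀ x)).det ≠ 0 := by
    intro h0
    rw [h5, gr_comp, h0] at h6
    simp at h6
  rw [h7, ← Real.exp_add, sub_add_cancel, h9, Real.exp_add, Real.exp_log (abs_pos.mpr h11), hΦy]

/-- the density is continuous -/
theorem lh_cont (e : M → F) (he : ContMDiff 𝓘(ℝ, E) 𝓘(ℝ, F) 1 e)
    (hinj : ∀ x, Function.Injective (dm E e x)) (x₀ : M) :
    ContinuousOn (lh e x₀) (extChartAt 𝓘(ℝ, E) x₀).target := by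
  intro y hy
  apply ContinuousAt.continuousWithinAt
  set κ₀ := extChartAt 𝓘(ℝ, E) x₀ with hκ₀
  have h0 := hatMap_contDiffAt e he x₀ y hy
  have h1 : ContinuousAt (fderiv ℝ (hatMap e x₀)) y :=
    (h0.fderiv_right (m := 0) (by norm_num)).continuousAt
  have h2 := gr_hat_pos e he x₀ (κ₀.symm y) (κ₀.map_target hy) (hinj _)
  rw [← hκ₀, κ₀.right_inv hy] at h2
  have h3 : ContinuousAt (fun y => gr (fderiv ℝ (hatMap e x₀) y)) y :=
    (contDiff_gr 0).continuous.continuousAt.comp h1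
  exact continuousAt_const.mul (h3.log h2.ne')

variable [MeasurableSpace E] [BorelSpace E]

/-- the density in a chart -/
noncomputable def dens (e : M → F) (x₀ : M) (y : E) : ℝ≥0∞ :=
  ENNReal.ofReal (Real.exp (lh e x₀ y))

/-- the volume in a chart -/
noncomputable def Vol (ν : Measure E) [MeasurableSpace M] (e : M → F) (x₀ : M) : Measure M :=
  ((ν.restrict (extChartAt 𝓘(ℝ, E) x₀).target).withDensity (dens e x₀)).map
    (extChartAt 𝓘(ℝ, E) x₀).symm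

variable [MeasurableSpace M] [BorelSpace M]

theorem meas_image (x₀ : M) (W : Set M) (hW : W ⊆ (extChartAt 𝓘(ℝ, E) x₀).source)
    (hWm : MeasurableSet W) : MeasurableSet (extChartAt 𝓘(ℝ, E) x₀ '' W) := by
  rw [image_chart x₀ W hW]
  have ht : MeasurableSet (extChartAt 𝓘(ℝ, E) x₀).target :=
    (isOpen_extChartAt_target x₀).measurableSet
  have h1 : Continuous ((extChartAt 𝓘(ℝ, E) x₀).target.domRestrict
      (extChartAt 𝓘(ℝ, E) x₀).symm) :=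
    (continuousOn_extChartAt_symm x₀).domRestrict
  have h2 := ht.subtype_image (h1.measurable hWm)
  convert h2 using 1
  ext y
  constructor
  · rintro ⟨h3, h4⟩
    exact ⟨⟨y, h3⟩, h4, rfl⟩
  · rintro ⟨⟨z, hz⟩, h4, rfl⟩
    exact ⟨hz, h4⟩

theorem aem (ν : Measure E) (e : M → F) (x₀ : M) :
    AEMeasurable (extChartAt 𝓘(ℝ, E) x₀).symm
      ((ν.restrict (extChartAt 𝓘(ℝ, E) x₀).target).withDensity (dens e x₀)) := by
  refine AEMeasurable.mono_ac ?_ (withDensity_absolutelyContinuous _ _)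
  exact (continuousOn_extChartAt_symm x₀).aemeasurable
    (isOpen_extChartAt_target x₀).measurableSet

theorem aed (ν : Measure E) (e : M → F) (he : ContMDiff 𝓘(ℝ, E) 𝓘(ℝ, F) 1 e)
    (hinj : ∀ x, Function.Injective (dm E e x)) (x₀ : M) :
    AEMeasurable (dens e x₀) (ν.restrict (extChartAt 𝓘(ℝ, E) x₀).target) := by
  have h1 := (lh_cont e he hinj x₀).aemeasurable (μ := ν)
    (isOpen_extChartAt_target x₀).measurableSet
  exact (Real.measurable_exp.comp_aemeasurable h1).ennreal_ofReal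

theorem vol_apply (ν : Measure E) [SFinite ν] (e : M → F) (x₀ : M) {B : Set M}
    (hB : MeasurableSet B) (hBs : B ⊆ (extChartAt 𝓘(ℝ, E) x₀).source) :
    Vol ν e x₀ B = ∫⁻ y in extChartAt 𝓘(ℝ, E) x₀ '' B, dens e x₀ y ∂ν := by
  rw [Vol, Measure.map_apply_of_aemeasurable (aem ν e x₀) hB, withDensity_apply',
    Measure.restrict_restrict' (isOpen_extChartAt_target x₀).measurableSet,
    image_chart x₀ B hBs, inter_comm]

/-- change of variables -/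
theorem vol_image (ν : Measure E) [ν.IsAddHaarMeasure] (e : M → F)
    (he : ContMDiff 𝓘(ℝ, E) 𝓘(ℝ, F) 1 e)
    (hinj : ∀ x, Function.Injective (dm E e x)) (G G' : M → M)
    (hG : ContMDiff 𝓘(ℝ, E) 𝓘(ℝ, E) 1 G)
    (hG' : ContMDiff 𝓘(ℝ, E) 𝓘(ℝ, E) 1 G') (h : ∀ x, G' (G x) = x) (h' : ∀ x, G (G' x) = x)
    (x₀ x₁ : M) {B : Set M} (hB : MeasurableSet B)
    (hBs : B ⊆ (extChartAt 𝓘(ℝ, E) x₀).source)
    (hBG : ∀ x ∈ B, G x ∈ (extChartAt 𝓘(ℝ, E) x₁).source) :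
    Vol ν e x₁ (G '' B) = ∫⁻ y in extChartAt 𝓘(ℝ, E) x₀ '' B,
      ENNReal.ofReal (Real.exp (jac E e G ((extChartAt 𝓘(ℝ, E) x₀).symm y))) * dens e x₀ y ∂ν := by
  have hGB : MeasurableSet (G '' B) := by
    have e1 : G '' B = G' ⁻¹' B := by
      ext y
      constructor
      · rintro ⟨x, hx, rfl⟩
        show G' (G x) ∈ B
        rw [h]; exact hx
      · intro hy
        exact ⟨G' y, hy, h' y⟩
    rw [e1]
    exact hG'.continuous.measurable hB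
  rw [vol_apply ν e x₁ hGB (by rintro _ ⟨x, hx, rfl⟩; exact hBG x hx)]
  set κ₀ := extChartAt 𝓘(ℝ, E) x₀ with hκ₀
  set κ₁ := extChartAt 𝓘(ℝ, E) x₁ with hκ₁
  set Φ : E → E := κ₁ ∘ G ∘ κ₀.symm with hΦ
  have hs : MeasurableSet (κ₀ '' B) := meas_image x₀ B hBs hB
  have himg : κ₁ '' (G '' B) = Φ '' (κ₀ '' B) := by
    rw [← image_comp, ← image_comp]
    apply image_congr
    intro x hx
    show κ₁ (G x) = κ₁ (G (κ₀.symm (κ₀ x)))
    rw [κ₀.left_inv (hBs hx)]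
  have hsW : ∀ y ∈ κ₀ '' B, ∃ x ∈ B, κ₀ x = y ∧ κ₀.symm y = x := by
    rintro _ ⟨x, hx, rfl⟩
    exact ⟨x, hx, rfl, κ₀.left_inv (hBs hx)⟩
  have hinjOn : InjOn Φ (κ₀ '' B) := by
    intro y hy y' hy' hyy
    obtain ⟨x, hx, rfl, h2⟩ := hsW y hy
    obtain ⟨x', hx', rfl, h2'⟩ := hsW y' hy'
    have h3 : G x = G x' := by
      apply κ₁.injOn (hBG _ hx) (hBG _ hx')
      have : κ₁ (G (κ₀.symm (κ₀ x))) = κ₁ (G (κ₀.symm (κ₀ x'))) := hyy
      rwa [h2, h2'] at this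
    have h4 : x = x' := by rw [← h x, h3, h]
    rw [h4]
  rw [himg, lintegral_image_eq_lintegral_abs_det_fderiv_mul ν hs
    (fun y hy => by
      obtain ⟨x, hx, rfl, h2⟩ := hsW y hy
      exact (((cv_local e he hinj G G' hG hG' h x₀ x₁ x (hBs hx) (hBG x hx)).1.differentiableAt
        (by norm_num)).hasFDerivAt).hasFDerivWithinAt) hinjOn]
  apply setLIntegral_congr_fun hs
  intro y hy
  obtain ⟨x, hx, rfl, h2⟩ := hsW y hy
  have h3 := (cv_local e he hinj G G' hG hG' h x₀ x₁ x (hBs hx) (hBG x hx)).2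
  simp only [dens]
  rw [h2, ← ENNReal.ofReal_mul (abs_nonneg _), ← ENNReal.ofReal_mul (Real.exp_pos _).le, h3]
  have h5 : Φ (κ₀ x) = κ₁ (G x) := by
    show κ₁ (G (κ₀.symm (κ₀ x))) = _
    rw [h2]
  rw [h5]

theorem jac_id (e : M → F) (x : M) : jac E e id x = 0 := by
  simp [jac]

theorem vol_compat (ν : Measure E) [ν.IsAddHaarMeasure] (e : M → F)
    (he : ContMDiff 𝓘(ℝ, E) 𝓘(ℝ, F) 1 e)
    (hinj : ∀ x, Function.Injective (dm E e x)) (x₀ x₁ : M) {B : Set M} (hB : MeasurableSet B)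
    (hBs : B ⊆ (extChartAt 𝓘(ℝ, E) x₀).source) (hBs' : B ⊆ (extChartAt 𝓘(ℝ, E) x₁).source) :
    Vol ν e x₁ B = Vol ν e x₀ B := by
  have h1 := vol_image ν e he hinj id id contMDiff_id contMDiff_id (fun _ => rfl) (fun _ => rfl)
    x₀ x₁ hB hBs hBs'
  rw [image_id] at h1
  rw [h1, vol_apply ν e x₀ hB hBs]
  apply lintegral_congr
  intro y
  rw [jac_id]
  simp

end Pool.Agent.V1186.PJ
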