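import Pool.Agent.V1186.PJ.V

/-!
# The Riemannian volume of an embedded compact manifold, and Jacobians
-/

set_option autoImplicit false
set_option linter.unusedSectionVars false

open scoped Manifold ContDiff Topology ENNReal
open Set Filter MeasureTheory

namespace Pool.Agent.V1186.PJ

open Pool.Agent.H721R2 Pool.Agent.Y321.PJ

variable {E : Type*} [NormedAddCommGroup E] [NormedSpace ℝ E] [FiniteDimensional ℝ E]
  {M : Type*} [MetricSpace M] [CompactSpace M] [ChartedSpace E M] [IsManifold 𝓘(ℝ, E) ∞ M]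
  {F : Type*} [NormedAddCommGroup F] [InnerProductSpace ℝ F]
  [MeasurableSpace E] [BorelSpace E] [MeasurableSpace M] [BorelSpace M]

/-- `μ` is the volume in every chart. -/
def IsVol (ν : Measure E) (e : M → F) (μ : Measure M) : Prop :=
  ∀ (x₀ : M) (B : Set M), MeasurableSet B → B ⊆ (extChartAt 𝓘(ℝ, E) x₀).source →
    μ B = Vol ν e x₀ B

theorem exists_vol [Nonempty M] (ν : Measure E) [ν.IsAddHaarMeasure] (e : M → F)
    (he : ContMDiff 𝓘(ℝ, E) 𝓘(ℝ, F) 2 e)
    (hinj : ∀ x, Function.Injective (dm E e x)) :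
    ∃ μ : Measure M, IsFiniteMeasure μ ∧ IsVol ν e μ := by
  have he1 : ContMDiff 𝓘(ℝ, E) 𝓘(ℝ, F) 1 e := he.of_le (by norm_num)
  choose r hr B hball hB using local_data (E := E) e he hinj
  let N : M → Set M := fun x => (extChartAt 𝓘(ℝ, E) x).source ∩
    extChartAt 𝓘(ℝ, E) x ⁻¹' Metric.ball (extChartAt 𝓘(ℝ, E) x x) (r x)
  have hNo : ∀ x, IsOpen (N x) := fun x =>
    (continuousOn_extChartAt x).isOpen_inter_preimage (isOpen_extChartAt_source x)
      Metric.isOpen_ball
  have hNx : ∀ x, x ∈ N x := fun x =>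
    ⟨mem_extChartAt_source x, Metric.mem_ball_self (hr x)⟩
  obtain ⟨t, -, ht⟩ := (isCompact_univ (X := M)).elim_nhds_subcover N
    (fun x _ => (hNo x).mem_nhds (hNx x))
  obtain ⟨z₀⟩ := ‹Nonempty M›
  let a : ℕ → M := fun i => if h : i < t.card then (t.equivFin.symm ⟨i, h⟩).1 else z₀
  let c : ℕ → Set M := fun i => if i < t.card then N (a i) else ∅
  have hcN : ∀ i, c i ⊆ N (a i) := by
    intro i
    by_cases h : i < t.card
    · simp [c, h]
    · simp [c, h]
  have hcm : ∀ i, MeasurableSet (c i) := by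
    intro i
    by_cases h : i < t.card
    · simp only [c, h, if_true]; exact (hNo _).measurableSet
    · simp [c, h]
  have hcu : ⋃ i, c i = univ := by
    rw [eq_univ_iff_forall]
    intro y
    have h1 := ht (mem_univ y)
    simp only [mem_iUnion, exists_prop] at h1
    obtain ⟨x, hx, hy⟩ := h1
    refine mem_iUnion.mpr ⟨(t.equivFin ⟨x, hx⟩).1, ?_⟩
    have h2 : ((t.equivFin ⟨x, hx⟩).1 : ℕ) < t.card := (t.equivFin ⟨x, hx⟩).2
    have h3 : a (t.equivFin ⟨x, hx⟩).1 = x := by
      simp only [a, h2, dif_pos]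
      simp
    simp only [c, h2, if_true, h3]
    exact hy
  let P : ℕ → Set M := disjointed c
  have hPm : ∀ i, MeasurableSet (P i) := fun i => MeasurableSet.disjointed hcm i
  have hPc : ∀ i, P i ⊆ c i := fun i => disjointed_le c i
  have hPu : ⋃ i, P i = univ := by rw [← hcu]; exact iUnion_disjointed
  have hPd : Pairwise (Function.onFun Disjoint P) := disjoint_disjointed c
  have hPs : ∀ i, P i ⊆ (extChartAt 𝓘(ℝ, E) (a i)).source := fun i x hx => (hcN i (hPc i hx)).1
  let μ : Measure M := Measure.sum fun i => (Vol ν e (a i)).restrict (P i)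
  have hμ : ∀ A, MeasurableSet A → μ A = ∑' i, Vol ν e (a i) (A ∩ P i) := by
    intro A hA
    rw [Measure.sum_apply _ hA]
    exact tsum_congr fun i => Measure.restrict_apply hA
  have hfin : ∀ i, Vol ν e (a i) (P i) < ⊤ := by
    intro i
    rw [vol_apply ν e (a i) (hPm i) (hPs i)]
    have hm := meas_image (a i) (P i) (hPs i) (hPm i)
    have hsub : extChartAt 𝓘(ℝ, E) (a i) '' P i ⊆
        Metric.ball (extChartAt 𝓘(ℝ, E) (a i) (a i)) (r (a i)) := by
      rintro _ ⟨x, hx, rfl⟩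
      exact (hcN i (hPc i hx)).2
    calc ∫⁻ y in extChartAt 𝓘(ℝ, E) (a i) '' P i, dens e (a i) y ∂ν
        ≤ ∫⁻ _ in extChartAt 𝓘(ℝ, E) (a i) '' P i, ENNReal.ofReal (Real.exp (B (a i))) ∂ν := by
          apply setLIntegral_mono' hm
          intro y hy
          exact ENNReal.ofReal_le_ofReal (Real.exp_le_exp.mpr
            ((le_abs_self _).trans (hB (a i) y (hsub hy))))
      _ = ENNReal.ofReal (Real.exp (B (a i))) * ν (extChartAt 𝓘(ℝ, E) (a i) '' P i) :=
          setLIntegral_const _ _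
      _ < ⊤ := ENNReal.mul_lt_top ENNReal.ofReal_lt_top
          ((measure_mono hsub).trans_lt measure_ball_lt_top)
  refine ⟨μ, ⟨?_⟩, ?_⟩
  · rw [hμ univ MeasurableSet.univ]
    rw [tsum_eq_sum (s := Finset.range t.card) (fun i hi => by
      rw [Finset.mem_range] at hi
      have h1 : c i = ∅ := by simp [c, hi]
      have h2 : P i = ∅ := subset_empty_iff.mp (by rw [← h1]; exact hPc i)
      rw [h2]; simp)]
    refine ENNReal.sum_lt_top.mpr fun i _ => ?_
    rw [univ_inter]
    exact hfin i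
  · intro x₀ A hA hAs
    rw [hμ A hA]
    have h1 : ∀ i, Vol ν e (a i) (A ∩ P i) = Vol ν e x₀ (A ∩ P i) := fun i =>
      vol_compat ν e he1 hinj x₀ (a i) (hA.inter (hPm i)) (inter_subset_left.trans hAs)
        (inter_subset_right.trans (hPs i))
    simp only [h1]
    rw [← measure_iUnion (fun i j hij => (hPd hij).mono inter_subset_right inter_subset_right)
      (fun i => hA.inter (hPm i)), ← inter_iUnion, hPu, inter_univ]

/-- integrals in a chart -/
theorem int_chart {ν : Measure E} [ν.IsAddHaarMeasure] {e : M → F}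
    (he : ContMDiff 𝓘(ℝ, E) 𝓘(ℝ, F) 1 e)
    (hinj : ∀ x, Function.Injective (dm E e x)) {μ : Measure M} (hμ : IsVol ν e μ) (x₀ : M)
    {B : Set M} (hB : MeasurableSet B) (hBs : B ⊆ (extChartAt 𝓘(ℝ, E) x₀).source)
    (k : M → ℝ≥0∞) (hk : Measurable k) :
    ∫⁻ x in B, k x ∂μ = ∫⁻ y in extChartAt 𝓘(ℝ, E) x₀ '' B,
      k ((extChartAt 𝓘(ℝ, E) x₀).symm y) * dens e x₀ y ∂ν := by
  have h1 : μ.restrict B = (Vol ν e x₀).restrict B := by
    ext A hA
    rw [Measure.restrict_apply hA, Measure.restrict_apply hA]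
    exact hμ x₀ _ (hA.inter hB) (inter_subset_right.trans hBs)
  rw [h1, ← lintegral_indicator hB, Vol,
    lintegral_map' (hk.indicator hB).aemeasurable (aem ν e x₀),
    lintegral_withDensity_eq_lintegral_mul₀' (aed ν e he hinj x₀)
      (show AEMeasurable (fun y => B.indicator k ((extChartAt 𝓘(ℝ, E) x₀).symm y)) _ from
        (hk.indicator hB).comp_aemeasurable (aem ν e x₀))]
  have hm := meas_image x₀ B hBs hB
  have h2 : ∫⁻ y in (extChartAt 𝓘(ℝ, E) x₀).target,
      dens e x₀ y * B.indicator k ((extChartAt 𝓘(ℝ, E) x₀).symm y) ∂ν =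
      ∫⁻ y in (extChartAt 𝓘(ℝ, E) x₀).target, (extChartAt 𝓘(ℝ, E) x₀ '' B).indicator
        (fun y => k ((extChartAt 𝓘(ℝ, E) x₀).symm y) * dens e x₀ y) y ∂ν := by
    apply setLIntegral_congr_fun (isOpen_extChartAt_target x₀).measurableSet
    intro y hy
    have h3 : y ∈ extChartAt 𝓘(ℝ, E) x₀ '' B ↔ (extChartAt 𝓘(ℝ, E) x₀).symm y ∈ B := by
      rw [image_chart x₀ B hBs]
      exact ⟨fun h => h.2, fun h => ⟨hy, h⟩⟩
    simp only
    by_cases h4 : (extChartAt 𝓘(ℝ, E) x₀).symm y ∈ B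
    · rw [indicator_of_mem h4, indicator_of_mem (h3.mpr h4), mul_comm]
    · rw [indicator_of_notMem h4, indicator_of_notMem (fun h => h4 (h3.mp h)), mul_zero]
  refine h2.trans ?_
  rw [lintegral_indicator hm, Measure.restrict_restrict hm, inter_eq_left.mpr]
  rw [image_chart x₀ B hBs]
  exact inter_subset_left

/-- The Jacobian of a diffeomorphism for the volume. -/
theorem vol_jac {ν : Measure E} [ν.IsAddHaarMeasure] {e : M → F}
    (he : ContMDiff 𝓘(ℝ, E) 𝓘(ℝ, F) 1 e)
    (hinj : ∀ x, Function.Injective (dm E e x)) {μ : Measure M} (hμ : IsVol ν e μ)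
    (G G' : M → M) (hG : ContMDiff 𝓘(ℝ, E) 𝓘(ℝ, E) 1 G)
    (hG' : ContMDiff 𝓘(ℝ, E) 𝓘(ℝ, E) 1 G') (h : ∀ x, G' (G x) = x) (h' : ∀ x, G (G' x) = x)
    (hj : Continuous (jac E e G)) {B : Set M} (hB : MeasurableSet B) :
    μ (G '' B) = ∫⁻ x in B, ENNReal.ofReal (Real.exp (jac E e G x)) ∂μ := by
  have him : ∀ B : Set M, G '' B = G' ⁻¹' B := by
    intro B
    ext y
    constructor
    · rintro ⟨x, hx, rfl⟩
      show G' (G x) ∈ B
      rw [h]; exact hx
    · intro hy
      exact ⟨G' y, hy, h' y⟩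
  have hjm : Measurable fun x => ENNReal.ofReal (Real.exp (jac E e G x)) :=
    (ENNReal.continuous_ofReal.comp (Real.continuous_exp.comp hj)).measurable
  let s : M × M → Set M := fun q =>
    (extChartAt 𝓘(ℝ, E) q.1).source ∩ G ⁻¹' (extChartAt 𝓘(ℝ, E) q.2).source
  have hso : ∀ q, IsOpen (s q) := fun q =>
    (isOpen_extChartAt_source q.1).inter ((isOpen_extChartAt_source q.2).preimage hG.continuous)
  obtain ⟨t, ht⟩ := (isCompact_univ (X := M)).elim_finite_subcover s hso (fun x _ =>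
    mem_iUnion.mpr ⟨(x, G x), mem_extChartAt_source x, mem_extChartAt_source (G x)⟩)
  have hu : ⋃ i ∈ (t : Set (M × M)), s i = univ := by
    rw [eq_univ_iff_forall]
    intro x
    have := ht (mem_univ x)
    simpa using this
  have key : μ.map G' = μ.withDensity fun x => ENNReal.ofReal (Real.exp (jac E e G x)) := by
    refine (Measure.ext_iff_of_biUnion_eq_univ t.countable_toSet hu).mpr fun q _ => ?_
    ext A hA
    rw [Measure.restrict_apply hA, Measure.restrict_apply hA]
    have hAm : MeasurableSet (A ∩ s q) := hA.inter (hso q).measurableSet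
    have h0 : A ∩ s q ⊆ (extChartAt 𝓘(ℝ, E) q.1).source := fun x hx => hx.2.1
    have h1 : ∀ x ∈ A ∩ s q, G x ∈ (extChartAt 𝓘(ℝ, E) q.2).source := fun x hx => hx.2.2
    have h2 : G '' (A ∩ s q) ⊆ (extChartAt 𝓘(ℝ, E) q.2).source := by
      rintro _ ⟨x, hx, rfl⟩; exact h1 x hx
    have h3 : MeasurableSet (G '' (A ∩ s q)) := by
      rw [him]; exact hG'.continuous.measurable hAm
    rw [Measure.map_apply hG'.continuous.measurable hAm, ← him, hμ q.2 _ h3 h2,
      vol_image ν e he hinj G G' hG hG' h h' q.1 q.2 hAm h0 h1, withDensity_apply _ hAm,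
      int_chart he hinj hμ q.1 hAm h0 _ hjm]
  rw [him, ← Measure.map_apply hG'.continuous.measurable hB, key, withDensity_apply _ hB]

theorem vol_openPos {ν : Measure E} [ν.IsAddHaarMeasure] {e : M → F}
    (he : ContMDiff 𝓘(ℝ, E) 𝓘(ℝ, F) 1 e)
    (hinj : ∀ x, Function.Injective (dm E e x)) {μ : Measure M} (hμ : IsVol ν e μ) :
    μ.IsOpenPosMeasure := by
  constructor
  intro U hU hUn h0
  obtain ⟨x₀, hx₀⟩ := hUn
  set A := U ∩ (extChartAt 𝓘(ℝ, E) x₀).source with hA
  have hAo : IsOpen A := hU.inter (isOpen_extChartAt_source x₀)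
  have hAs : A ⊆ (extChartAt 𝓘(ℝ, E) x₀).source := inter_subset_right
  have h1 : μ A = 0 := measure_mono_null inter_subset_left h0
  rw [hμ x₀ A hAo.measurableSet hAs, vol_apply ν e x₀ hAo.measurableSet hAs,
    lintegral_eq_zero_iff' ((aed ν e he hinj x₀).mono_measure (Measure.restrict_mono (by
      rw [image_chart x₀ A hAs]; exact inter_subset_left) le_rfl))] at h1
  have h2 : ν (extChartAt 𝓘(ℝ, E) x₀ '' A) = 0 := by
    rw [← Measure.restrict_eq_zero]
    have h3 : ∀ᵐ y ∂(ν.restrict (extChartAt 𝓘(ℝ, E) x₀ '' A)), False := by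
      filter_upwards [h1] with y hy
      have : (0 : ℝ≥0∞) < dens e x₀ y := ENNReal.ofReal_pos.mpr (Real.exp_pos _)
      exact this.ne' hy
    exact ae_eq_bot.mp (eventually_false_iff_eq_bot.mp h3)
  have h4 := isOpen_image_chart x₀ A hAs hAo
  exact (h4.measure_pos ν ⟨_, x₀, ⟨hx₀, mem_extChartAt_source x₀⟩, rfl⟩).ne' h2

end Pool.Agent.V1186.PJ
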